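import Mathlib

/-!
Global existence and uniqueness for a bounded Lipschitz field that is only measurable in time,
and two facts on absolutely continuous curves.
-/

set_option autoImplicit false

namespace Pool.Agent.Lib.MP_5f8094_an

open MeasureTheory BoundedContinuousFunction

variable {Y : Type*} [NormedAddCommGroup Y] [NormedSpace ℝ Y]

lemma weight_integral {K d p : ℝ} (hK : 0 ≤ K) (hd : 0 ≤ d) :
    ∫ s in (0 : ℝ)..p, K * (Real.exp ((2 * K + 1) * s) * d) ≤
      Real.exp ((2 * K + 1) * p) * d / 2 := by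
  have hl : 0 < 2 * K + 1 := by linarith
  have h1 : ∀ s : ℝ, HasDerivAt (fun s => K * (Real.exp ((2 * K + 1) * s) / (2 * K + 1) * d))
      (K * (Real.exp ((2 * K + 1) * s) * d)) s := by
    intro s
    have h2 := ((((hasDerivAt_id s).const_mul (2 * K + 1)).exp.div_const (2 * K + 1)).mul_const
      d).const_mul K
    refine h2.congr_deriv ?_
    simp only [id]
    field_simp
  rw [intervalIntegral.integral_eq_sub_of_hasDerivAt (fun s _ => h1 s)
    (Continuous.intervalIntegrable (by fun_prop) _ _)]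
  have h3 := Real.exp_pos ((2 * K + 1) * p)
  have h4 : 0 ≤ K * (Real.exp ((2 * K + 1) * 0) / (2 * K + 1) * d) := by positivity
  have h5 : K * (Real.exp ((2 * K + 1) * p) / (2 * K + 1) * d) =
      K / (2 * K + 1) * (Real.exp ((2 * K + 1) * p) * d) := by ring
  have h6 : K / (2 * K + 1) ≤ 1 / 2 := by rw [div_le_iff₀ hl]; linarith
  have h7 := mul_le_mul_of_nonneg_right h6 (by positivity : 0 ≤ Real.exp ((2 * K + 1) * p) * d)
  linarith

omit [NormedSpace ℝ Y] in
lemma intervalIntegrable_of_bound {f : ℝ → Y} {C : ℝ} (hC : ∀ t, ‖f t‖ ≤ C)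
    (hf : AEStronglyMeasurable f volume) (a b : ℝ) : IntervalIntegrable f volume a b :=
  (intervalIntegrable_const (c := C)).mono_fun' hf.restrict (Filter.Eventually.of_forall hC)

theorem picard [CompleteSpace Y] {F : ℝ → Y → Y} {C K : ℝ} (hK0 : 0 ≤ K)
    (hC : ∀ t y, ‖F t y‖ ≤ C) (hK : ∀ t y z, ‖F t y - F t z‖ ≤ K * ‖y - z‖)
    (hm : ∀ y : ℝ → Y, Continuous y → AEStronglyMeasurable (fun t => F t (y t)) volume)
    (x₀ : Y) :
    ∃ y : ℝ → Y, Continuous y ∧ ∀ t, 0 ≤ t → y t = x₀ + ∫ s in (0 : ℝ)..t, F s (y s) := by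
  have hC0 : 0 ≤ C := (norm_nonneg _).trans (hC 0 0)
  set w : ℝ → ℝ := fun t => Real.exp ((2 * K + 1) * max t 0) with hw
  have hwc : Continuous w := by simp only [hw]; fun_prop
  have hwp : ∀ t, 0 < w t := fun t => Real.exp_pos _
  have hyc : ∀ u : ℝ →ᵇ Y, Continuous fun t => w t • u t := fun u => hwc.smul u.continuous
  have hint : ∀ (u : ℝ →ᵇ Y) (a b : ℝ),
      IntervalIntegrable (fun s => F s (w s • u s)) volume a b := fun u a b =>
    intervalIntegrable_of_bound (fun t => hC t _) (hm _ (hyc u)) a b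
  set G : (ℝ →ᵇ Y) → ℝ → Y := fun u t =>
    (w t)⁻¹ • (x₀ + ∫ s in (0 : ℝ)..max t 0, F s (w s • u s)) with hG
  have hGc : ∀ u, Continuous (G u) := fun u =>
    (hwc.inv₀ fun t => (hwp t).ne').smul (continuous_const.add
      ((intervalIntegral.continuous_primitive (hint u) 0).comp (continuous_id.max continuous_const)))
  have hGb : ∀ u t, ‖G u t‖ ≤ ‖x₀‖ + C := by
    intro u t
    have hp : 0 ≤ max t 0 := le_max_right _ _
    have h1 : ‖∫ s in (0 : ℝ)..max t 0, F s (w s • u s)‖ ≤ C * |max t 0 - 0| :=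
      intervalIntegral.norm_integral_le_of_norm_le_const fun s _ => hC s _
    rw [sub_zero, abs_of_nonneg hp] at h1
    have h2 : (2 * K + 1) * max t 0 + 1 ≤ w t := Real.add_one_le_exp _
    have h3 : 0 ≤ K * max t 0 := mul_nonneg hK0 hp
    simp only [hG]
    rw [norm_smul, norm_inv, Real.norm_eq_abs, abs_of_pos (hwp t), inv_mul_le_iff₀ (hwp t)]
    refine (norm_add_le _ _).trans ?_
    have h4 : max t 0 ≤ w t := by linarith
    have h5 : 1 ≤ w t := by linarith
    have h6 := mul_le_mul_of_nonneg_left h4 hC0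
    have h7 := mul_le_mul_of_nonneg_left h5 (norm_nonneg x₀)
    linarith
  set T : (ℝ →ᵇ Y) → (ℝ →ᵇ Y) := fun u => ofNormedAddCommGroup (G u) (hGc u) _ (hGb u) with hT
  have hcon : ContractingWith (1 / 2) T := by
    refine ⟨by norm_num, LipschitzWith.of_dist_le_mul fun u v => ?_⟩
    refine (dist_le (by positivity)).mpr fun t => ?_
    have hp : 0 ≤ max t 0 := le_max_right _ _
    have h1 : G u t - G v t =
        (w t)⁻¹ • ∫ s in (0 : ℝ)..max t 0, (F s (w s • u s) - F s (w s • v s)) := by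
      simp only [hG]
      rw [← smul_sub, intervalIntegral.integral_sub (hint u _ _) (hint v _ _)]
      congr 1
      abel
    have h2 : ‖∫ s in (0 : ℝ)..max t 0, (F s (w s • u s) - F s (w s • v s))‖ ≤
        ∫ s in (0 : ℝ)..max t 0, K * (Real.exp ((2 * K + 1) * s) * dist u v) := by
      refine intervalIntegral.norm_integral_le_of_norm_le hp
        (Filter.Eventually.of_forall fun s hs => ?_) (Continuous.intervalIntegrable (by fun_prop) _ _)
      refine (hK s _ _).trans (mul_le_mul_of_nonneg_left ?_ hK0)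
      rw [← smul_sub, norm_smul, Real.norm_eq_abs, abs_of_pos (hwp s), ← dist_eq_norm]
      have : w s = Real.exp ((2 * K + 1) * s) := by simp only [hw]; rw [max_eq_left hs.1.le]
      rw [this]
      exact mul_le_mul_of_nonneg_left (dist_coe_le_dist s) (Real.exp_pos _).le
    have h3 := h2.trans (weight_integral hK0 dist_nonneg)
    change dist (G u t) (G v t) ≤ _
    rw [dist_eq_norm, h1, norm_smul, norm_inv, Real.norm_eq_abs, abs_of_pos (hwp t),
      inv_mul_le_iff₀ (hwp t)]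
    refine h3.trans (le_of_eq ?_)
    simp only [hw]
    push_cast
    ring
  obtain ⟨u, hu⟩ : ∃ u, T u = u := ⟨_, hcon.fixedPoint_isFixedPt⟩
  refine ⟨fun t => w t • u t, hyc u, fun t ht => ?_⟩
  have h1 : u t = G u t := by
    conv_lhs => rw [← hu]
    rfl
  beta_reduce
  conv_lhs => rw [h1]
  simp only [hG]
  rw [smul_inv_smul₀ (hwp t).ne', max_eq_left ht]

/-- Integral form of the uniqueness estimate. -/
lemma eq_zero_of_le_integral {d : ℝ → ℝ} {K T : ℝ} (hK : 0 ≤ K) (hT : 0 ≤ T)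
    (hd : ContinuousOn d (Set.Icc 0 T)) (hd0 : ∀ t ∈ Set.Icc 0 T, 0 ≤ d t)
    (h : ∀ t ∈ Set.Icc 0 T, d t ≤ ∫ s in (0 : ℝ)..t, K * d s) : d T = 0 := by
  have hc : ContinuousOn (fun t => d t / Real.exp ((2 * K + 1) * t)) (Set.Icc 0 T) :=
    hd.div (by fun_prop) fun t _ => (Real.exp_pos _).ne'
  obtain ⟨t, ht, hmax⟩ := isCompact_Icc.exists_isMaxOn (Set.nonempty_Icc.mpr hT) hc
  set m := d t / Real.exp ((2 * K + 1) * t) with hm
  have hm0 : 0 ≤ m := div_nonneg (hd0 t ht) (Real.exp_pos _).le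
  have hle : ∀ s ∈ Set.Icc 0 T, d s ≤ Real.exp ((2 * K + 1) * s) * m := fun s hs => by
    have h1 : d s / Real.exp ((2 * K + 1) * s) ≤ m := hmax hs
    rwa [div_le_iff₀ (Real.exp_pos _), mul_comm] at h1
  have h1 : ∫ s in (0 : ℝ)..t, K * d s ≤
      ∫ s in (0 : ℝ)..t, K * (Real.exp ((2 * K + 1) * s) * m) := by
    refine intervalIntegral.integral_mono_on ht.1 ?_
      (Continuous.intervalIntegrable (by fun_prop) _ _) fun s hs => ?_
    · exact ((hd.mono (Set.uIcc_subset_Icc ⟨le_rfl, hT⟩ ht)).intervalIntegrable).const_mul K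
    · exact mul_le_mul_of_nonneg_left (hle s ⟨hs.1, hs.2.trans ht.2⟩) hK
  have h2 := (h t ht).trans (h1.trans (weight_integral hK hm0))
  have h3 : Real.exp ((2 * K + 1) * t) * m = d t := by
    rw [hm]; field_simp
  have h4 : m = 0 := by
    have h5 : d t = 0 := by linarith [hd0 t ht]
    rw [hm, h5, zero_div]
  have h5 := hle T ⟨hT, le_rfl⟩
  rw [h4, mul_zero] at h5
  exact le_antisymm h5 (hd0 T ⟨hT, le_rfl⟩)

/-- Stopping an absolutely continuous curve at time `0`. -/
lemma ac_comp_min {Z : Type*} [PseudoMetricSpace Z] {x : ℝ → Z} {a b : ℝ}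
    (h : AbsolutelyContinuousOnInterval x (min a 0) (min b 0)) :
    AbsolutelyContinuousOnInterval (fun t => x (min t 0)) a b := by
  rw [absolutelyContinuousOnInterval_iff] at h ⊢
  intro ε hε
  obtain ⟨δ, hδ, h⟩ := h ε hε
  refine ⟨δ, hδ, fun E hE hlt => ?_⟩
  have hmono : Monotone fun t : ℝ => min t 0 := fun s t hst => min_le_min_right _ hst
  refine h (E.1, fun i => (min (E.2 i).1 0, min (E.2 i).2 0)) ⟨fun i hi => ?_, ?_⟩ ?_
  · exact ⟨hmono.mapsTo_uIcc (hE.1 i hi).1, hmono.mapsTo_uIcc (hE.1 i hi).2⟩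
  · refine hE.2.mono fun i => ?_
    intro t ht
    simp only [Set.mem_uIoc] at ht ⊢
    grind
  · refine lt_of_le_of_lt (Finset.sum_le_sum fun i _ => ?_) hlt
    simpa [Real.dist_eq] using abs_min_sub_min_le_max (E.2 i).1 0 (E.2 i).2 0

lemma ac_apply {ι : Type*} [Fintype ι] {x : ℝ → ι → ℝ} {a b : ℝ}
    (h : AbsolutelyContinuousOnInterval x a b) (i : ι) :
    AbsolutelyContinuousOnInterval (fun t => x t i) a b := by
  rw [absolutelyContinuousOnInterval_iff] at h ⊢
  intro ε hε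
  obtain ⟨δ, hδ, h⟩ := h ε hε
  exact ⟨δ, hδ, fun E hE hlt =>
    lt_of_le_of_lt (Finset.sum_le_sum fun j _ => dist_le_pi_dist _ _ i) (h E hE hlt)⟩

end Pool.Agent.Lib.MP_5f8094_an
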