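import Pool.Agent.Lib.MP_5f8094_an.Tree

/-!
The tropical Lyapunov function: a concave piecewise linear function whose supergradients are the
vectors `-log x / W` rounded onto the flats of the arrangement.
-/

set_option autoImplicit false

namespace Pool.Agent.Lib.MP_5f8094_an

open Finset

variable {ι : Type} [Fintype ι] [DecidableEq ι]

/-- The amount at tropical level `u`. -/
noncomputable def X (W u : ℝ) : ℝ := Real.exp (-(W * u))

lemma X_pos (W u : ℝ) : 0 < X W u := Real.exp_pos _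

lemma X_add (W u v : ℝ) : X W (u + v) = X W u * X W v := by
  unfold X; rw [← Real.exp_add]; congr 1; ring

lemma X_anti {W u v : ℝ} (hW : 0 < W) (h : u ≤ v) : X W v ≤ X W u := by
  unfold X; exact Real.exp_le_exp.mpr (by nlinarith)

lemma X_step {W u v l : ℝ} (hW : 0 < W) (hl : X W l ≤ 1 / 16) (h : u + l ≤ v) :
    16 * X W v ≤ X W u := by
  have h1 := X_anti hW h
  rw [X_add] at h1
  have h2 := X_pos W u
  nlinarith

namespace Setup

variable (S : Setup ι)

lemma lam_le_one : S.lam ≤ 1 := pow_le_one₀ S.q_pos.le S.q_le_one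

theorem tree {W a Ω : ℝ} (hW : 0 < W) (hζ : X W S.lam ≤ S.lam / 16) (ha : X W (Ω - 1) < a)
    (k : ℕ) : ∀ (L : Finset ι) (c : ι → ℝ) (α : ℕ) (s l : ℝ), L.Nonempty → S.Inv L c α →
      S.Arr L c α s l → Ω ≤ s + k * S.lam →
      ∃ F : (ι → ℝ) → ℝ,
        (∀ y : ι → ℝ, (∀ i, 0 ≤ y i) → -(2 * X W (s + S.lam)) ≤ F y ∧ F y ≤ 0) ∧
        ∀ x : ι → ℝ, (∀ i, a ≤ x i) → ∑ i ∈ L, x i ≤ X W (l - S.lam) →
          ∃ c' : ι → ℝ, (∀ i, i ∉ L → c' i = c i) ∧
            (∀ y : ι → ℝ, F y ≤ F x + ∑ i ∈ L, (c' i - s) * (y i - x i)) ∧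
            ∃ β : ℕ, β + 4 ≤ α + 4 ^ (L.card + 1) ∧
              (∀ i ∈ L, X W (c' i + S.q ^ (β + 4)) ≤ x i ∧ x i ≤ X W (c' i - S.q ^ (β + 4))) ∧
              ∀ v ∈ S.T 0, ip ∅ v c' = 0 ∨ S.q ^ β ≤ |ip ∅ v c'| := by
  have hlam := S.lam_pos
  have hlam1 := S.lam_le_one
  have hζ' : X W S.lam ≤ 1 / 16 := by linarith
  have ha0 : 0 < a := (X_pos _ _).trans ha
  induction k with
  | zero =>
    intro L c α s l hL hI hA hΩ
    refine ⟨fun _ => 0, fun y _ => ⟨by have := X_pos W (s + S.lam); linarith, le_rfl⟩, ?_⟩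
    intro x hx hM
    exfalso
    obtain ⟨i, hi⟩ := hL
    have h1 : x i ≤ ∑ j ∈ L, x j :=
      Finset.single_le_sum (fun j _ => (ha0.le.trans (hx j))) hi
    have h2 := S.arr_one hI hA
    have h3 : X W (l - S.lam) ≤ X W (Ω - 1) := X_anti hW (by simp at hΩ; linarith)
    have := hx i
    linarith
  | succ k ih =>
    intro L c α s l hL hI hA hΩ
    have hsep := S.arr_sep hA
    -- the data of the option `B`
    have key : ∀ B : Finset ι, ∃ (t : ℝ) (F : (ι → ℝ) → ℝ), B ⊆ L → B ≠ L →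
        S.thr (L \ B) (cB c s B) (S.aB L c α s B) s + S.lam ≤ t ∧ t ≤ s + 1 ∧
        (∀ y : ι → ℝ, (∀ i, 0 ≤ y i) → -(2 * X W (t + S.lam)) ≤ F y ∧ F y ≤ 0) ∧
        ∀ x : ι → ℝ, (∀ i, a ≤ x i) →
          ∑ i ∈ L \ B, x i ≤ X W (S.thr (L \ B) (cB c s B) (S.aB L c α s B) s - S.lam) →
          ∃ c' : ι → ℝ, (∀ i, i ∉ L \ B → c' i = cB c s B i) ∧
            (∀ y : ι → ℝ, F y ≤ F x + ∑ i ∈ L \ B, (c' i - t) * (y i - x i)) ∧
            ∃ β : ℕ, β + 4 ≤ S.aB L c α s B + 4 ^ ((L \ B).card + 1) ∧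
              (∀ i ∈ L \ B,
                X W (c' i + S.q ^ (β + 4)) ≤ x i ∧ x i ≤ X W (c' i - S.q ^ (β + 4))) ∧
              ∀ v ∈ S.T 0, ip ∅ v c' = 0 ∨ S.q ^ β ≤ |ip ∅ v c'| := by
      intro B
      by_cases hB : B ⊆ L ∧ B ≠ L
      · have hne : (L \ B).Nonempty := by
          rw [Finset.sdiff_nonempty]
          exact fun h => hB.2 (Finset.Subset.antisymm hB.1 h)
        have hI' := S.inv_stop hL hI hsep hB.1
        obtain ⟨t, ht1, ht2, ht3⟩ := S.exists_next hne hI' (S.sep_stop hsep)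
        have ht4 := S.thr_ge hI' s
        obtain ⟨F, hF1, hF2⟩ := ih _ _ _ t _ hne hI' ht3 (by push_cast at hΩ; linarith)
        exact ⟨t, F, fun _ _ => ⟨ht1, ht2, hF1, hF2⟩⟩
      · exact ⟨0, fun _ => 0, fun h1 h2 => absurd ⟨h1, h2⟩ hB⟩
    choose t F hF using key
    set θ : Finset ι → ℝ := fun B => S.thr (L \ B) (cB c s B) (S.aB L c α s B) s with hθ
    have hθge : ∀ B, B ⊆ L → s + S.lam ≤ θ B := fun B hB =>
      S.thr_ge (S.inv_stop hL hI hsep hB) s
    set val : Finset ι → (ι → ℝ) → ℝ := fun B y =>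
      if B = L then 0 else (t B - s) * (∑ i ∈ L \ B, y i) - X W (θ B) + F B y with hval
    have hpow : L.powerset.Nonempty := ⟨∅, by simp⟩
    -- lower bound of an option
    have hlow : ∀ B, B ⊆ L → ∀ y : ι → ℝ, (∀ i, 0 ≤ y i) → B ≠ L →
        (t B - s) * (∑ i ∈ L \ B, y i) - 2 * X W (θ B) ≤ val B y := by
      intro B hB y hy hne
      obtain ⟨h1, -, h3, -⟩ := hF B hB hne
      have h4 := (h3 y hy).1
      have h5 : 16 * X W (t B + S.lam) ≤ X W (θ B) := X_step hW hζ' (by linarith)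
      have h6 := X_pos W (t B + S.lam)
      simp only [hval, if_neg hne]
      linarith
    have hts : ∀ B, B ⊆ L → B ≠ L → 2 * S.lam ≤ t B - s := by
      intro B hB hne
      have h1 := (hF B hB hne).1
      have h2 := hθge B hB
      simp only [hθ] at h2
      linarith
    have hlow' : ∀ B, B ⊆ L → ∀ y : ι → ℝ, (∀ i, 0 ≤ y i) → -(2 * X W (θ B)) ≤ val B y := by
      intro B hB y hy
      by_cases hne : B = L
      · have := X_pos W (θ B)
        simp only [hval, if_pos hne]
        linarith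
      · have h1 := hlow B hB y hy hne
        have h2 := hts B hB hne
        have h3 : 0 ≤ ∑ i ∈ L \ B, y i := Finset.sum_nonneg fun i _ => hy i
        have h4 : 0 ≤ (t B - s) * (∑ i ∈ L \ B, y i) := mul_nonneg (by linarith) h3
        linarith
    -- upper bound of an option
    have hup : ∀ B, B ⊆ L → ∀ y : ι → ℝ, (∀ i, 0 ≤ y i) → B ≠ L →
        val B y ≤ (∑ i ∈ L \ B, y i) - X W (θ B) := by
      intro B hB y hy hne
      obtain ⟨-, h2, h3, -⟩ := hF B hB hne
      have h4 := (h3 y hy).2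
      have h5 : 0 ≤ ∑ i ∈ L \ B, y i := Finset.sum_nonneg fun i _ => hy i
      have h6 : (t B - s) * (∑ i ∈ L \ B, y i) ≤ 1 * (∑ i ∈ L \ B, y i) :=
        mul_le_mul_of_nonneg_right (by linarith) h5
      simp only [hval, if_neg hne]
      linarith
    have hle : ∀ B, B ⊆ L → ∀ y, L.powerset.inf' hpow (fun B => val B y) ≤ val B y :=
      fun B hB y => Finset.inf'_le _ (Finset.mem_powerset.mpr hB)
    refine ⟨fun y => L.powerset.inf' hpow (fun B => val B y), fun y hy => ⟨?_, ?_⟩, ?_⟩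
    · refine Finset.le_inf' _ _ fun B hB => ?_
      have hB' := Finset.mem_powerset.mp hB
      have h1 := hlow' B hB' y hy
      have h2 : X W (θ B) ≤ X W (s + S.lam) := X_anti hW (hθge B hB')
      linarith
    · have := hle L subset_rfl y
      simpa [hval] using this
    intro x hx hM
    have hx0 : ∀ i, 0 ≤ x i := fun i => ha0.le.trans (hx i)
    obtain ⟨B, hBmem, hBeq⟩ := Finset.exists_mem_eq_inf' hpow (fun B => val B x)
    have hB := Finset.mem_powerset.mp hBmem
    have hmin : ∀ B', B' ⊆ L → val B x ≤ val B' x := fun B' hB' => hBeq ▸ hle B' hB' x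
    -- species in the block: upper bound on the amount
    have hupper : ∀ i ∈ B, x i ≤ X W (s - S.err (S.aB L c α s B) (L \ B).card) := by
      intro i hi
      have h1 : x i ≤ ∑ j ∈ L, x j := Finset.single_le_sum (fun j _ => hx0 j) (hB hi)
      have h2 := S.arr_err hI hA hB (Finset.ne_empty_of_mem hi)
      exact h1.trans (hM.trans (X_anti hW h2))
    -- comparison with the block without `i`
    have hcmp : ∀ i ∈ B, val B x ≤ (∑ j ∈ L \ B, x j) + x i - X W (θ (B.erase i)) := by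
      intro i hi
      have hsub : B.erase i ⊆ L := (Finset.erase_subset i B).trans hB
      have hne : B.erase i ≠ L := fun h => by
        have : i ∈ B.erase i := h ▸ hB hi
        simp at this
      have h1 := (hmin _ hsub).trans (hup _ hsub x hx0 hne)
      have h2 : L \ B.erase i = insert i (L \ B) := by
        ext j
        simp only [mem_sdiff, mem_erase, mem_insert]
        constructor
        · rintro ⟨h3, h4⟩
          by_cases hj : j = i
          · exact Or.inl hj
          · exact Or.inr ⟨h3, fun h5 => h4 ⟨hj, h5⟩⟩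
        · rintro (rfl | ⟨h3, h4⟩)
          · exact ⟨hB hi, fun h5 => h5.1 rfl⟩
          · exact ⟨h3, fun h5 => h4 h5.2⟩
      rw [h2, Finset.sum_insert (by simp [hi])] at h1
      linarith
    have herr : ∀ i ∈ B, 8 * (θ (B.erase i) - s) ≤ S.err (S.aB L c α s B) (L \ B).card :=
      fun i hi => S.thr_erase hI hB hi
    have hge' : ∀ i ∈ B, s + S.lam ≤ θ (B.erase i) := fun i _ =>
      hθge _ ((Finset.erase_subset i B).trans hB)
    by_cases hBL : B = L
    · -- everything stops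
      subst hBL
      have hI' := S.inv_stop hL hI hsep hB
      have hbud := S.aB_budget c α s hB
      simp only [Finset.sdiff_self, Finset.card_empty] at hI' hbud hupper herr hcmp
      refine ⟨cB c s B, fun i hi => by simp [cB, hi], fun y => ?_, S.aB B c α s B, ?_, ?_, ?_⟩
      · have h1 := hle B subset_rfl y
        have h2 : ∑ i ∈ B, (cB c s B i - s) * (y i - x i) = 0 :=
          Finset.sum_eq_zero fun i hi => by simp [cB, hi]
        have h3 : val B y = 0 := by simp [hval]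
        have h4 : val B x = 0 := by simp [hval]
        beta_reduce
        rw [h2, hBeq]
        linarith
      · simpa using hbud
      · intro i hi
        have h0 : cB c s B i = s := by simp [cB, hi]
        have h1 : S.err (S.aB B c α s B) 0 = S.q ^ (S.aB B c α s B + 4) := by simp [err]
        rw [h0, ← h1]
        refine ⟨?_, hupper i hi⟩
        have h2 := hcmp i hi
        have h3 := herr i hi
        have h4 := hge' i hi
        simp only [hval, if_true, Finset.sum_empty] at h2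
        have h5 : X W (s + S.err (S.aB B c α s B) 0) ≤ X W (θ (B.erase i)) :=
          X_anti hW (by linarith)
        linarith
      · simpa using hI'.1
    · -- some species go on
      have hv0 : val B x ≤ 0 := by
        have := hmin L subset_rfl
        simpa [hval] using this
      have hM' : ∑ i ∈ L \ B, x i ≤ X W (θ B - S.lam) := by
        have h1 := hlow B hB x hx0 hBL
        have h2 := hts B hB hBL
        have h3 : 0 ≤ ∑ i ∈ L \ B, x i := Finset.sum_nonneg fun i _ => hx0 i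
        have h4 : 2 * S.lam * (∑ i ∈ L \ B, x i) ≤ (t B - s) * (∑ i ∈ L \ B, x i) :=
          mul_le_mul_of_nonneg_right h2 h3
        have h5 : X W (θ B) = X W (θ B - S.lam) * X W S.lam := by
          rw [← X_add]; congr 1; ring
        have h6 := X_pos W (θ B - S.lam)
        have h7 : X W (θ B - S.lam) * X W S.lam ≤ X W (θ B - S.lam) * (S.lam / 16) :=
          mul_le_mul_of_nonneg_left hζ h6.le
        have h8 : S.lam * (∑ i ∈ L \ B, x i) ≤ S.lam * X W (θ B - S.lam) := by nlinarith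
        exact le_of_mul_le_mul_left h8 hlam
      obtain ⟨c', hc1, hc2, β, hβ1, hβ2, hβ3⟩ := (hF B hB hBL).2.2.2 x hx hM'
      have hcB : ∀ i ∈ B, c' i = s := fun i hi => by
        rw [hc1 i (by simp [hi])]; simp [cB, hi]
      refine ⟨c', fun i hi => ?_, fun y => ?_, β, hβ1.trans (S.aB_budget c α s hB), ?_, hβ3⟩
      · have h1 : i ∉ B := fun h => hi (hB h)
        rw [hc1 i (by simp [hi])]; simp [cB, h1]
      · have h1 := hle B hB y
        have h2 := hc2 y
        have h3 : ∑ i ∈ L, (c' i - s) * (y i - x i) = ∑ i ∈ L \ B, (c' i - s) * (y i - x i) := by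
          symm
          refine Finset.sum_subset Finset.sdiff_subset fun i hi hi' => ?_
          have : i ∈ B := by
            by_contra h
            exact hi' (Finset.mem_sdiff.mpr ⟨hi, h⟩)
          simp [hcB i this]
        have h4 : ∑ i ∈ L \ B, (c' i - s) * (y i - x i) =
            ∑ i ∈ L \ B, (c' i - t B) * (y i - x i) +
              ((t B - s) * (∑ i ∈ L \ B, y i) - (t B - s) * (∑ i ∈ L \ B, x i)) := by
          rw [Finset.mul_sum, Finset.mul_sum, ← Finset.sum_sub_distrib, ← Finset.sum_add_distrib]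
          exact Finset.sum_congr rfl fun i _ => by ring
        have h5 : ∀ z, val B z = (t B - s) * (∑ i ∈ L \ B, z i) - X W (θ B) + F B z :=
          fun z => by simp only [hval, if_neg hBL]
        beta_reduce
        rw [h3, h4, hBeq]
        have h6 := h5 x
        have h7 := h5 y
        linarith
      · intro i hi
        by_cases hiB : i ∈ B
        · have he : S.err (S.aB L c α s B) (L \ B).card ≤ S.q ^ (β + 4) := S.pow_anti hβ1
          rw [hcB i hiB]
          refine ⟨?_, (hupper i hiB).trans (X_anti hW (by linarith))⟩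
          have h1 := hcmp i hiB
          have h2 := herr i hiB
          have h3 := hge' i hiB
          have h4 := hlow' B hB x hx0
          have h5 : θ B = s + S.eta (S.aB L c α s B) (L \ B).card := by
            simp only [hθ, thr, if_pos (S.spec_stop c s (Finset.ne_empty_of_mem hiB))]
          have h6 := S.err_le_eta (S.aB L c α s B) (L \ B).card
          have h7 : 16 * X W (θ B) ≤ X W (θ (B.erase i)) := X_step hW hζ' (by linarith)
          have h8 : 16 * X W (θ B - S.lam) ≤ X W (θ (B.erase i)) := X_step hW hζ' (by linarith)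
          have h9 : 16 * X W (s + S.q ^ (β + 4)) ≤ X W (θ (B.erase i)) :=
            X_step hW hζ' (by linarith)
          have h10 := X_pos W (θ (B.erase i))
          linarith
        · exact hβ2 i (Finset.mem_sdiff.mpr ⟨hi, hiB⟩)

end Setup

/-- The vectors giving the special values. -/
def spv (V : Set (ι → ℝ)) : Set (ι → ℝ) :=
  (fun p : (ι → ℝ) × Finset ι => (-(∑ i ∈ p.2, p.1 i)⁻¹) • p.1) '' (V ×ˢ Set.univ) ∪
    Set.range fun i => (Pi.single i (1 : ℝ) : ι → ℝ)

/-- The tower of finite sets of vectors. -/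
def tower (V : Set (ι → ℝ)) : ℕ → Set (ι → ℝ)
  | 0 => V
  | r + 1 => tower V r ∪
      (fun p : (ι → ℝ) × (ι → ℝ) => p.1 - p.2) '' (spv (tower V r) ×ˢ spv (tower V r))

lemma spv_finite {V : Set (ι → ℝ)} (h : V.Finite) : (spv V).Finite :=
  ((h.prod Set.finite_univ).image _).union (Set.finite_range _)

lemma tower_finite {V : Set (ι → ℝ)} (h : V.Finite) (r : ℕ) : (tower V r).Finite := by
  induction r with
  | zero => exact h
  | succ r ih => exact ih.union (((spv_finite ih).prod (spv_finite ih)).image _)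

lemma exists_pos_le_of_finite {A : Set ℝ} (h : A.Finite) (hA : ∀ a ∈ A, 0 < a) :
    ∃ q : ℝ, 0 < q ∧ ∀ a ∈ A, q ≤ a := by
  rcases A.eq_empty_or_nonempty with rfl | hne
  · exact ⟨1, one_pos, by simp⟩
  · obtain ⟨a, ha, hmin⟩ := Set.exists_min_image A id h hne
    exact ⟨a, hA a ha, hmin⟩

lemma exists_setup {V : Set (ι → ℝ)} (h : V.Finite) :
    ∃ S : Setup ι, S.T 0 = V ∧ ∀ v ∈ V, (∑ i, |v i|) * S.q ≤ 1 := by
  have hmono : ∀ r, tower V r ⊆ tower V (r + 1) := fun r => Set.subset_union_left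
  have hmono' : ∀ a b, a ≤ b → tower V a ⊆ tower V b := fun a b hab => by
    induction hab with
    | refl => exact subset_rfl
    | step _ ih => exact ih.trans (hmono _)
  obtain ⟨q1, hq1, hq1'⟩ := exists_pos_le_of_finite
    (A := ((fun p : (ι → ℝ) × Finset ι => |∑ i ∈ p.2, p.1 i|) ''
      (tower V (Fintype.card ι) ×ˢ Set.univ)) ∩ Set.Ioi 0)
    ((((tower_finite h _).prod Set.finite_univ).image _).inter_of_left _) (fun a ha => ha.2)
  obtain ⟨q2, hq2, hq2'⟩ := exists_pos_le_of_finite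
    (A := (fun v : ι → ℝ => ((∑ i, |v i|) + 1)⁻¹) '' V) (h.image _)
    (by rintro a ⟨v, -, rfl⟩; positivity)
  refine ⟨⟨tower V, fun r => spv (tower V r), min (min q1 q2) (1 / 8), by positivity,
    min_le_right _ _, hmono, ?_, ?_, ?_, ?_⟩, rfl, ?_⟩
  · intro r w hw w' hw'
    exact Or.inr ⟨(w, w'), ⟨hw, hw'⟩, rfl⟩
  · intro r v hv B
    exact Or.inl ⟨(v, B), ⟨hv, trivial⟩, rfl⟩
  · intro r i
    exact Or.inr ⟨i, rfl⟩
  · intro r hr v hv B hb
    refine ((min_le_left _ _).trans (min_le_left _ _)).trans (hq1' _ ⟨?_, abs_pos.mpr hb⟩)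
    exact ⟨(v, B), ⟨hmono' _ _ hr hv, trivial⟩, rfl⟩
  · intro v hv
    have h1 := hq2' _ ⟨v, hv, rfl⟩
    have h2 : min (min q1 q2) (1 / 8) ≤ ((∑ i, |v i|) + 1)⁻¹ :=
      ((min_le_left _ _).trans (min_le_right _ _)).trans h1
    have h3 : 0 ≤ ∑ i, |v i| := Finset.sum_nonneg fun i _ => abs_nonneg _
    calc (∑ i, |v i|) * min (min q1 q2) (1 / 8) ≤ (∑ i, |v i|) * ((∑ i, |v i|) + 1)⁻¹ :=
          mul_le_mul_of_nonneg_left h2 h3
      _ ≤ 1 := by
          rw [← div_eq_mul_inv, div_le_one (by positivity)]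
          linarith

/-- **The tropical Lyapunov function.** -/
theorem core {V : Set (ι → ℝ)} (hV : V.Finite) :
    ∃ g : ℝ, 0 < g ∧ ∀ δ R : ℝ, ∃ W₀ : ℝ, ∀ W, W₀ ≤ W → ∀ L : Finset ι, L.Nonempty →
      ∀ s₀ : ℝ, |s₀| = 1 → ∀ a : ℝ, 0 < a → ∃ Θ : (ι → ℝ) → ℝ,
        (∀ y : ι → ℝ, (∀ i, 0 ≤ y i) →
          s₀ * (∑ i ∈ L, y i) - X W s₀ / 8 ≤ Θ y ∧ Θ y ≤ s₀ * (∑ i ∈ L, y i)) ∧
        ∀ x : ι → ℝ, (∀ i, a ≤ x i) → ∑ i ∈ L, x i ≤ 2 * X W s₀ →
          (∀ i, i ∉ L → |Real.log (x i)| ≤ R) →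
          ∃ c : ι → ℝ, (∀ y : ι → ℝ, Θ y ≤ Θ x + ∑ i, c i * (y i - x i)) ∧
            ∀ v ∈ V, 0 < ∑ i, v i * c i →
              g ≤ ∑ i, v i * c i ∧ ∑ i, v i * Real.log (x i) ≤ -δ := by
  obtain ⟨S, hS0, hSq⟩ := exists_setup hV
  have hq := S.q_pos
  have hlam := S.lam_pos
  have hlam1 := S.lam_le_one
  have hg : 0 < S.q ^ S.N := pow_pos hq _
  refine ⟨S.q ^ S.N, hg, fun δ R => ?_⟩
  refine ⟨max (max 1 (16 / S.lam ^ 2)) (max (R / S.q ^ S.N) (2 * δ / S.q ^ S.N)), ?_⟩
  intro W hW L hL s₀ hs₀ a ha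
  have hW1 : 1 ≤ W := ((le_max_left _ _).trans (le_max_left _ _)).trans hW
  have hW2 : 16 / S.lam ^ 2 ≤ W := ((le_max_right _ _).trans (le_max_left _ _)).trans hW
  have hW3 : R / S.q ^ S.N ≤ W := ((le_max_left _ _).trans (le_max_right _ _)).trans hW
  have hW4 : 2 * δ / S.q ^ S.N ≤ W := ((le_max_right _ _).trans (le_max_right _ _)).trans hW
  have hW0 : 0 < W := by linarith
  rw [div_le_iff₀ hg] at hW3 hW4
  rw [div_le_iff₀ (by positivity)] at hW2
  have hζ : X W S.lam ≤ S.lam / 16 := by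
    have h1 : W * S.lam + 1 ≤ Real.exp (W * S.lam) := Real.add_one_le_exp _
    have h2 : X W S.lam * Real.exp (W * S.lam) = 1 := by
      unfold X; rw [← Real.exp_add]; simp
    have h3 := X_pos W S.lam
    have h4 : X W S.lam * (W * S.lam) ≤ 1 := by nlinarith
    have h5 : X W S.lam * 16 ≤ X W S.lam * (W * S.lam ^ 2) := mul_le_mul_of_nonneg_left hW2 h3.le
    nlinarith
  have hζ' : X W S.lam ≤ 1 / 16 := by linarith
  -- the truncation depth
  obtain ⟨Ω, hΩ⟩ : ∃ Ω : ℝ, X W (Ω - 1) < a := by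
    refine ⟨1 + (|Real.log a| + 1), ?_⟩
    unfold X
    rw [← Real.exp_log ha, Real.exp_lt_exp, Real.log_exp]
    have h1 := neg_abs_le (Real.log a)
    have h2 := abs_nonneg (Real.log a)
    nlinarith
  obtain ⟨k, hk⟩ := exists_nat_ge ((Ω - s₀) / S.lam)
  rw [div_le_iff₀ hlam] at hk
  have hip0 : ∀ v : ι → ℝ, ip L v 0 = 0 := fun v => by simp [ip]
  have hI : S.Inv L 0 0 := by
    refine ⟨fun v _ => Or.inl (hip0 v), ?_⟩
    rw [zero_add]
    exact Nat.pow_le_pow_right (by norm_num) (Nat.succ_le_succ (Finset.card_le_univ L))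
  have hA : S.Arr L 0 0 s₀ s₀ := by
    refine Or.inr ⟨?_, by linarith⟩
    rintro ρ ⟨w, -, rfl⟩
    rw [hip0, sub_zero, hs₀]
    exact pow_le_one₀ hq.le S.q_le_one
  obtain ⟨F, hF1, hF2⟩ := S.tree hW0 hζ hΩ k L 0 0 s₀ s₀ hL hI hA (by linarith)
  refine ⟨fun y => s₀ * (∑ i ∈ L, y i) + F y, fun y hy => ?_, fun x hx hM hR => ?_⟩
  · obtain ⟨h1, h2⟩ := hF1 y hy
    have h3 : 16 * X W (s₀ + S.lam) ≤ X W s₀ := X_step hW0 hζ' le_rfl
    constructor <;> linarith
  have hM' : ∑ i ∈ L, x i ≤ X W (s₀ - S.lam) := by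
    have h3 : 16 * X W s₀ ≤ X W (s₀ - S.lam) := X_step hW0 hζ' (by linarith)
    have h4 := X_pos W s₀
    linarith
  obtain ⟨c, hc1, hc2, β, hβ1, hβ2, hβ3⟩ := hF2 x hx hM'
  have hβN : β + 4 ≤ S.N := hβ1.trans hI.2
  refine ⟨c, fun y => ?_, fun v hv hpos => ?_⟩
  · have h1 := hc2 y
    have h2 : ∑ i, c i * (y i - x i) = ∑ i ∈ L, c i * (y i - x i) := by
      symm
      refine Finset.sum_subset (Finset.subset_univ _) fun i _ hi => ?_
      simp [hc1 i hi]
    have h3 : ∑ i ∈ L, c i * (y i - x i) = ∑ i ∈ L, (c i - s₀) * (y i - x i) +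
        (s₀ * (∑ i ∈ L, y i) - s₀ * (∑ i ∈ L, x i)) := by
      rw [Finset.mul_sum, Finset.mul_sum, ← Finset.sum_sub_distrib, ← Finset.sum_add_distrib]
      exact Finset.sum_congr rfl fun i _ => by ring
    rw [h2, h3]
    linarith
  · have hip : ip ∅ v c = ∑ i, v i * c i := by simp [ip]
    have hgap : S.q ^ β ≤ ∑ i, v i * c i := by
      rcases hβ3 v (hS0 ▸ hv) with h0 | h0
      · rw [hip] at h0; linarith
      · rwa [hip, abs_of_pos hpos] at h0
    have hqβ : S.q ^ S.N ≤ S.q ^ β := S.pow_anti (by omega)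
    refine ⟨hqβ.trans hgap, ?_⟩
    have he : S.q ^ S.N ≤ S.q ^ (β + 4) := S.pow_anti hβN
    -- the error on each coordinate
    have herr : ∀ i, |Real.log (x i) + W * c i| ≤ W * S.q ^ (β + 4) := by
      intro i
      have hxi : 0 < x i := ha.trans_le (hx i)
      by_cases hi : i ∈ L
      · obtain ⟨h1, h2⟩ := hβ2 i hi
        unfold X at h1 h2
        have h3 := (Real.le_log_iff_exp_le hxi).mpr h1
        have h4 := (Real.log_le_iff_le_exp hxi).mpr h2
        rw [abs_le]
        constructor <;> nlinarith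
      · rw [hc1 i hi]
        have := hR i hi
        simp only [Pi.zero_apply, mul_zero, add_zero]
        nlinarith
    have h1 : ∑ i, v i * Real.log (x i) =
        ∑ i, v i * (Real.log (x i) + W * c i) - W * ∑ i, v i * c i := by
      rw [Finset.mul_sum, ← Finset.sum_sub_distrib]
      exact Finset.sum_congr rfl fun i _ => by ring
    have h2 : ∑ i, v i * (Real.log (x i) + W * c i) ≤ (∑ i, |v i|) * (W * S.q ^ (β + 4)) := by
      rw [Finset.sum_mul]
      refine Finset.sum_le_sum fun i _ => ?_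
      refine (le_abs_self _).trans ?_
      rw [abs_mul]
      exact mul_le_mul_of_nonneg_left (herr i) (abs_nonneg _)
    have h3 := hSq v hv
    have h4 : 8 * S.q ^ (β + 3) ≤ S.q ^ β := S.pow_anti8 (by omega)
    have h5 : S.q ^ (β + 4) = S.q * S.q ^ (β + 3) := by ring
    have h6 : 0 < S.q ^ (β + 3) := pow_pos hq _
    have h7 : (∑ i, |v i|) * (W * S.q ^ (β + 4)) ≤ W * S.q ^ (β + 3) := by
      rw [h5]
      calc (∑ i, |v i|) * (W * (S.q * S.q ^ (β + 3)))
          = ((∑ i, |v i|) * S.q) * (W * S.q ^ (β + 3)) := by ring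
        _ ≤ 1 * (W * S.q ^ (β + 3)) := mul_le_mul_of_nonneg_right h3 (by positivity)
        _ = W * S.q ^ (β + 3) := one_mul _
    have h8 : W * S.q ^ β ≤ W * ∑ i, v i * c i := mul_le_mul_of_nonneg_left hgap hW0.le
    have h9 : W * (8 * S.q ^ (β + 3)) ≤ W * S.q ^ β := mul_le_mul_of_nonneg_left h4 hW0.le
    have h10 : W * S.q ^ S.N ≤ W * S.q ^ β := mul_le_mul_of_nonneg_left hqβ hW0.le
    have h11 : 0 < W * S.q ^ β := by positivity
    rw [h1]
    linarith

end Pool.Agent.Lib.MP_5f8094_an
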