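import Pool.Agent.Lib.MP_5f8094_an.Mono

/-!
A priori bounds and eventual uniform bounds for solutions.
-/

set_option autoImplicit false

namespace Pool.Agent.Lib.MP_5f8094_an

open Finset MeasureTheory

variable {ι : Type} [Fintype ι] [DecidableEq ι]
variable {E : Finset ((ι → ℝ) × (ι → ℝ))} {ε : ℝ}

lemma exists_first {G : ℝ → ℝ} {t₀ t₁ c : ℝ} (ht : t₀ ≤ t₁) (hG : ContinuousOn G (Set.Icc t₀ t₁))
    (h0 : G t₀ ≤ c) (h1 : c ≤ G t₁) :
    ∃ t ∈ Set.Icc t₀ t₁, G t = c ∧ ∀ s ∈ Set.Icc t₀ t, G s ≤ c := by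
  have hA : IsCompact (Set.Icc t₀ t₁ ∩ G ⁻¹' {c}) :=
    isCompact_Icc.of_isClosed_subset
      (hG.preimage_isClosed_of_isClosed isClosed_Icc isClosed_singleton) Set.inter_subset_left
  obtain ⟨u, hu, huc⟩ := intermediate_value_Icc ht hG ⟨h0, h1⟩
  obtain ⟨t, ht1, ht2⟩ := hA.exists_isLeast ⟨u, hu, huc⟩
  refine ⟨t, ht1.1, ht1.2, fun s hs => ?_⟩
  by_contra hcon
  have hs1 : s ≤ t₁ := hs.2.trans ht1.1.2
  obtain ⟨w, hw, hwc⟩ := intermediate_value_Icc hs.1 (hG.mono (Set.Icc_subset_Icc le_rfl hs1))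
    ⟨h0, (not_le.mp hcon).le⟩
  have h2 : t ≤ w := ht2 ⟨⟨hw.1, hw.2.trans hs1⟩, hwc⟩
  have h3 : s = t := le_antisymm hs.2 (h2.trans hw.2)
  have h4 : G t = c := ht1.2
  rw [h3, h4] at hcon
  exact hcon le_rfl

lemma exists_last {G : ℝ → ℝ} {t₀ t₁ c : ℝ} (ht : t₀ ≤ t₁) (hG : ContinuousOn G (Set.Icc t₀ t₁))
    (h0 : c ≤ G t₀) (h1 : G t₁ ≤ c) :
    ∃ t ∈ Set.Icc t₀ t₁, G t = c ∧ ∀ s ∈ Set.Icc t t₁, G s ≤ c := by
  have hA : IsCompact (Set.Icc t₀ t₁ ∩ G ⁻¹' {c}) :=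
    isCompact_Icc.of_isClosed_subset
      (hG.preimage_isClosed_of_isClosed isClosed_Icc isClosed_singleton) Set.inter_subset_left
  obtain ⟨u, hu, huc⟩ := intermediate_value_Icc' ht hG ⟨h1, h0⟩
  obtain ⟨t, ht1, ht2⟩ := hA.exists_isGreatest ⟨u, hu, huc⟩
  refine ⟨t, ht1.1, ht1.2, fun s hs => ?_⟩
  by_contra hcon
  have hs1 : t₀ ≤ s := ht1.1.1.trans hs.1
  obtain ⟨w, hw, hwc⟩ := intermediate_value_Icc' hs.2 (hG.mono (Set.Icc_subset_Icc hs1 le_rfl))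
    ⟨h1, (not_le.mp hcon).le⟩
  have h2 : w ≤ t := ht2 ⟨⟨hs1.trans hw.1, hw.2⟩, hwc⟩
  have h3 : s = t := le_antisymm (hw.1.trans h2) hs.1
  have h4 : G t = c := ht1.2
  rw [h3, h4] at hcon
  exact hcon le_rfl

omit [DecidableEq ι] in
lemma ISol.cont_sum {k : (ι → ℝ) × (ι → ℝ) → ℝ → ℝ} {x : ℝ → ι → ℝ} {t₀ t₁ : ℝ}
    (h : ISol E k x t₀ t₁) (L : Finset ι) :
    ContinuousOn (fun t => ∑ i ∈ L, x t i) (Set.Icc t₀ t₁) :=
  continuousOn_finsetSum _ fun i _ => (continuous_apply i).comp_continuousOn h.cont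

omit [DecidableEq ι] in
lemma ISol.mem_span {k : (ι → ℝ) × (ι → ℝ) → ℝ → ℝ} {x : ℝ → ι → ℝ} {t₀ t₁ : ℝ}
    (h : ISol E k x t₀ t₁) {a b : ℝ} (ha : a ∈ Set.Icc t₀ t₁) (hb : b ∈ Set.Icc t₀ t₁) :
    x b - x a ∈ Submodule.span ℝ ((fun e : (ι → ℝ) × (ι → ℝ) => e.2 - e.1) '' E) := by
  rw [h.eq a ha b hb]
  exact Submodule.sum_mem _ fun e he =>
    Submodule.smul_mem _ _ (Submodule.subset_span ⟨e, he, rfl⟩)

lemma abs_log_le {a B z : ℝ} (ha : 0 < a) (h1 : a ≤ z) (h2 : z ≤ B) :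
    |Real.log z| ≤ |Real.log a| + |Real.log B| := by
  have h3 := Real.log_le_log ha h1
  have h4 := Real.log_le_log (ha.trans_le h1) h2
  have h5 := neg_abs_le (Real.log a)
  have h6 := le_abs_self (Real.log B)
  have h7 := abs_nonneg (Real.log a)
  have h8 := abs_nonneg (Real.log B)
  rw [abs_le]
  constructor <;> linarith

omit [DecidableEq ι] in
lemma mon_lower (E : Finset ((ι → ℝ) × (ι → ℝ))) {a : ℝ} (ha : 0 < a) (B : ℝ) :
    ∃ μ : ℝ, 0 < μ ∧ ∀ z : ι → ℝ, (∀ i, a ≤ z i ∧ z i ≤ B) → ∀ e ∈ E, μ ≤ mon z e.1 := by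
  set R := |Real.log a| + |Real.log B| with hR
  have hR0 : 0 ≤ R := by positivity
  refine ⟨Real.exp (-((∑ e ∈ E, ∑ i, |e.1 i|) * R)), Real.exp_pos _, fun z hz e he => ?_⟩
  rw [mon_eq_exp fun i => ha.trans_le (hz i).1, Real.exp_le_exp]
  have h1 : ∑ i, |e.1 i| ≤ ∑ e ∈ E, ∑ i, |e.1 i| :=
    Finset.single_le_sum (f := fun e : (ι → ℝ) × (ι → ℝ) => ∑ i, |e.1 i|)
      (fun e _ => Finset.sum_nonneg fun i _ => abs_nonneg _) he
  have h2 : -((∑ i, |e.1 i|) * R) ≤ ∑ i, e.1 i * Real.log (z i) := by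
    rw [Finset.sum_mul, ← Finset.sum_neg_distrib]
    refine Finset.sum_le_sum fun i _ => ?_
    refine le_trans ?_ (neg_abs_le _)
    rw [abs_mul, neg_le_neg_iff]
    exact mul_le_mul_of_nonneg_left (abs_log_le ha (hz i).1 (hz i).2) (abs_nonneg _)
  have h3 := mul_le_mul_of_nonneg_right h1 hR0
  linarith

/-- The top level far from the origin. -/
lemma stepUp [Nonempty ι] (hε : 0 < ε)
    (hwr : ∀ e ∈ E, Relation.ReflTransGen (fun u v => (u, v) ∈ E) e.2 e.1) :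
    ∃ g m₀ : ℝ, 0 < g ∧ 0 < m₀ ∧ ∀ m, m₀ ≤ m → ∀ k, Rates E ε k →
      ∀ (x : ℝ → ι → ℝ) (t₀ t₁ : ℝ), t₀ ≤ t₁ → ISol E k x t₀ t₁ →
        (∀ t ∈ Set.Icc t₀ t₁, ∑ i, x t i ≤ 2 * m) →
        ∑ i, x t₁ i ≤ ∑ i, x t₀ i + m / 8 ∧
        ∀ x₀ : ι → ℝ, (∀ i, 0 ≤ x₀ i) → ∀ μ : ℝ, 0 < μ →
          (∀ t ∈ Set.Icc t₀ t₁, ∀ e ∈ E, μ ≤ mon (x t) e.1) →
          (∀ t ∈ Set.Icc t₀ t₁, x t - x₀ ∈
            Submodule.span ℝ ((fun e : (ι → ℝ) × (ι → ℝ) => e.2 - e.1) '' E)) →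
          (∀ t ∈ Set.Icc t₀ t₁, ∑ i, x₀ i + m / 8 < ∑ i, x t i) →
          ∑ i, x t₁ i + ε * μ / 2 * g * (t₁ - t₀) ≤ ∑ i, x t₀ i + m / 8 := by
  obtain ⟨g, hg, h⟩ := step hε hwr
  obtain ⟨W₀, hW₀⟩ := h 0
  refine ⟨g, Real.exp W₀, hg, Real.exp_pos _, fun m hm k hk x t₀ t₁ ht hx hM => ?_⟩
  have hm0 : 0 < m := (Real.exp_pos _).trans_le hm
  have hX : X (Real.log m) (-1) = m := by simp [X, Real.exp_log hm0]
  have := hW₀ (Real.log m) ((Real.le_log_iff_exp_le hm0).mpr hm) univ univ_nonempty (-1)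
    (by simp) k hk x t₀ t₁ ht hx (by rwa [hX]) (by simp)
  rw [hX] at this
  refine ⟨by linarith [this.1], fun x₀ hx₀ μ hμ h1 h2 h3 => ?_⟩
  have h4 := this.2 x₀ hx₀ μ hμ h1 h2 fun t ht => by linarith [h3 t ht]
  linarith

/-- A level near the boundary. -/
lemma stepDown (hε : 0 < ε)
    (hwr : ∀ e ∈ E, Relation.ReflTransGen (fun u v => (u, v) ∈ E) e.2 e.1) (R : ℝ) :
    ∃ g m₀ : ℝ, 0 < g ∧ 0 < m₀ ∧ ∀ m, 0 < m → m ≤ m₀ → ∀ L : Finset ι, L.Nonempty →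
      ∀ k, Rates E ε k → ∀ (x : ℝ → ι → ℝ) (t₀ t₁ : ℝ), t₀ ≤ t₁ → ISol E k x t₀ t₁ →
        (∀ t ∈ Set.Icc t₀ t₁, ∑ i ∈ L, x t i ≤ 2 * m) →
        (∀ t ∈ Set.Icc t₀ t₁, ∀ i, i ∉ L → |Real.log (x t i)| ≤ R) →
        ∑ i ∈ L, x t₀ i - m / 8 ≤ ∑ i ∈ L, x t₁ i ∧
        ∀ x₀ : ι → ℝ, (∀ i, 0 ≤ x₀ i) → ∀ μ : ℝ, 0 < μ →
          (∀ t ∈ Set.Icc t₀ t₁, ∀ e ∈ E, μ ≤ mon (x t) e.1) →
          (∀ t ∈ Set.Icc t₀ t₁, x t - x₀ ∈
            Submodule.span ℝ ((fun e : (ι → ℝ) × (ι → ℝ) => e.2 - e.1) '' E)) →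
          (∀ t ∈ Set.Icc t₀ t₁, ∑ i ∈ L, x t i < ∑ i ∈ L, x₀ i - m / 8) →
          ∑ i ∈ L, x t₀ i - m / 8 + ε * μ / 2 * g * (t₁ - t₀) ≤ ∑ i ∈ L, x t₁ i := by
  obtain ⟨g, hg, h⟩ := step hε hwr
  obtain ⟨W₀, hW₀⟩ := h R
  refine ⟨g, Real.exp (-W₀), hg, Real.exp_pos _,
    fun m hm0 hm L hL k hk x t₀ t₁ ht hx hM hR => ?_⟩
  have hX : X (-Real.log m) 1 = m := by simp [X, Real.exp_log hm0]
  have hW : W₀ ≤ -Real.log m := by
    have := (Real.log_le_iff_le_exp hm0).mpr hm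
    linarith
  have := hW₀ (-Real.log m) hW L hL 1 (by simp) k hk x t₀ t₁ ht hx (by rwa [hX]) hR
  rw [hX] at this
  simpa using this

/-- If the species in `L` are small, all the others are among the large ones. -/
lemma off_large {z : ι → ℝ} (hz : ∀ i, 0 ≤ z i) {b : ℝ} {j : ℕ} {L : Finset ι}
    (hj : j ≤ (univ.filter fun i => b ≤ z i).card) (hL : L.card + j = Fintype.card ι)
    (hM : ∑ i ∈ L, z i < b) : ∀ i, i ∉ L → b ≤ z i := by
  have h1 : (univ.filter fun i => b ≤ z i) ⊆ Lᶜ := by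
    intro i hi
    rw [Finset.mem_compl]
    intro hiL
    have h2 : z i ≤ ∑ i ∈ L, z i := Finset.single_le_sum (fun i _ => hz i) hiL
    have h3 := (Finset.mem_filter.mp hi).2
    linarith
  have h2 : (Lᶜ).card ≤ (univ.filter fun i => b ≤ z i).card := by
    rw [Finset.card_compl]; omega
  have h3 := Finset.eq_of_subset_of_card_le h1 h2
  intro i hi
  have : i ∈ univ.filter fun i => b ≤ z i := by rw [h3]; exact Finset.mem_compl.mpr hi
  exact (Finset.mem_filter.mp this).2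

/-- The sum of the small species cannot halve. -/
lemma keep {k : (ι → ℝ) × (ι → ℝ) → ℝ → ℝ} {x : ℝ → ι → ℝ} {t₀ t₁ b B m : ℝ} {j : ℕ}
    (hj : j < Fintype.card ι) (ht : t₀ ≤ t₁) (hx : ISol E k x t₀ t₁) (hm : 0 < m)
    (hb : 2 * m < b)
    (hstep : ∀ L : Finset ι, L.Nonempty → ∀ a, a ≤ t₁ → ISol E k x a t₁ →
        (∀ t ∈ Set.Icc a t₁, ∑ i ∈ L, x t i ≤ 2 * m) →
        (∀ t ∈ Set.Icc a t₁, ∀ i, i ∉ L → |Real.log (x t i)| ≤ |Real.log b| + |Real.log B|) →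
        ∑ i ∈ L, x a i - m / 8 ≤ ∑ i ∈ L, x t₁ i)
    (h1 : ∀ t ∈ Set.Icc t₀ t₁, j ≤ (univ.filter fun i => b ≤ x t i).card)
    (h2 : ∀ t ∈ Set.Icc t₀ t₁, ∀ i, x t i ≤ B)
    (h3 : ∀ L : Finset ι, L.card + j = Fintype.card ι → 2 * m ≤ ∑ i ∈ L, x t₀ i) :
    j + 1 ≤ (univ.filter fun i => m / Fintype.card ι ≤ x t₁ i).card := by
  by_contra hcon
  have hn : (1 : ℝ) ≤ Fintype.card ι := by exact_mod_cast (by omega : 1 ≤ Fintype.card ι)
  have hmn : m / Fintype.card ι ≤ m := div_le_self hm.le hn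
  set H := univ.filter fun i => m / Fintype.card ι ≤ x t₁ i with hH
  have h4 : (univ.filter fun i => b ≤ x t₁ i) ⊆ H := by
    intro i hi
    have := (Finset.mem_filter.mp hi).2
    exact Finset.mem_filter.mpr ⟨Finset.mem_univ _, by linarith⟩
  have h5 := (h1 t₁ ⟨ht, le_rfl⟩).trans (Finset.card_le_card h4)
  have hcard : (Hᶜ).card + j = Fintype.card ι := by
    rw [Finset.card_compl]
    have := Finset.card_le_univ H
    omega
  have hne : (Hᶜ).Nonempty := Finset.card_pos.mp (by omega)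
  have h6 : ∑ i ∈ Hᶜ, x t₁ i ≤ m := by
    have h7 : ∑ i ∈ Hᶜ, x t₁ i ≤ (Hᶜ).card • (m / Fintype.card ι) :=
      Finset.sum_le_card_nsmul _ _ _ fun i hi => by
        have := Finset.mem_compl.mp hi
        simp only [hH, Finset.mem_filter, Finset.mem_univ, true_and, not_le] at this
        exact this.le
    rw [nsmul_eq_mul] at h7
    have h8 : ((Hᶜ).card : ℝ) ≤ Fintype.card ι := by exact_mod_cast Finset.card_le_univ _
    have h9 : ((Hᶜ).card : ℝ) * (m / Fintype.card ι) ≤ Fintype.card ι * (m / Fintype.card ι) :=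
      mul_le_mul_of_nonneg_right h8 (by positivity)
    have h10 : (Fintype.card ι : ℝ) * (m / Fintype.card ι) = m := by field_simp
    linarith
  obtain ⟨a, ha, ha1, ha2⟩ := exists_last ht (hx.cont_sum Hᶜ) (h3 _ hcard) (by linarith)
  have h7 := hstep Hᶜ hne a ha.2 (hx.mono ha.1 le_rfl) ha2 fun t htm i hi => by
    have htm' : t ∈ Set.Icc t₀ t₁ := ⟨ha.1.trans htm.1, htm.2⟩
    exact abs_log_le (by linarith)
      (off_large (fun i => (hx.pos t htm' i).le) (h1 t htm') hcard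
        ((ha2 t htm).trans_lt hb) i hi) (h2 t htm' i)
  linarith

omit [DecidableEq ι] in
lemma all_of_card {z : ι → ℝ} {b : ℝ}
    (h : Fintype.card ι ≤ (univ.filter fun i => b ≤ z i).card) (i : ι) : b ≤ z i := by
  have := Finset.eq_univ_of_card _ (le_antisymm (Finset.card_le_univ _) h)
  have h2 : i ∈ univ.filter fun i => b ≤ z i := by rw [this]; exact Finset.mem_univ _
  exact (Finset.mem_filter.mp h2).2

omit [DecidableEq ι] in
lemma exists_lower {x₀ : ι → ℝ} (hx₀ : ∀ i, 0 < x₀ i) : ∃ a : ℝ, 0 < a ∧ ∀ i, a ≤ x₀ i := by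
  classical
  obtain ⟨a, ha, ha'⟩ := exists_pos_le_of_finite (Set.finite_range x₀)
    (by rintro _ ⟨i, rfl⟩; exact hx₀ i)
  exact ⟨a, ha, fun i => ha' _ ⟨i, rfl⟩⟩

/-- **A priori bounds**: boundedness and persistence. -/
theorem apriori (hε : 0 < ε)
    (hwr : ∀ e ∈ E, Relation.ReflTransGen (fun u v => (u, v) ∈ E) e.2 e.1)
    {x₀ : ι → ℝ} (hx₀ : ∀ i, 0 < x₀ i) :
    ∃ b B : ℝ, 0 < b ∧ ∀ k, Rates E ε k → ∀ (x : ℝ → ι → ℝ) (T : ℝ), ISol E k x 0 T →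
      x 0 = x₀ → ∀ t ∈ Set.Icc 0 T, ∀ i, b ≤ x t i ∧ x t i ≤ B := by
  rcases isEmpty_or_nonempty ι with hι | hι
  · exact ⟨1, 1, one_pos, fun _ _ _ _ _ _ _ _ i => (hι.false i).elim⟩
  obtain ⟨B, hB⟩ : ∃ B : ℝ, ∀ k, Rates E ε k → ∀ (x : ℝ → ι → ℝ) (T : ℝ), ISol E k x 0 T →
      x 0 = x₀ → ∀ t ∈ Set.Icc 0 T, ∀ i, x t i ≤ B := by
    obtain ⟨g, m₀, -, hm₀, h⟩ := stepUp hε hwr
    set m := max m₀ (∑ i, x₀ i) with hm
    have hm1 : m₀ ≤ m := le_max_left _ _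
    have hm2 : ∑ i, x₀ i ≤ m := le_max_right _ _
    refine ⟨2 * m, fun k hk x T hx h0 t ht i => ?_⟩
    have h1 : x t i ≤ ∑ j, x t j :=
      Finset.single_le_sum (fun j _ => (hx.pos t ht j).le) (Finset.mem_univ i)
    refine h1.trans ?_
    by_contra hcon
    have hx' := hx.mono le_rfl ht.2
    obtain ⟨u, hu, hu1, hu2⟩ := exists_first ht.1 (hx'.cont_sum univ)
      (c := 2 * m) (by rw [h0]; linarith) (not_le.mp hcon).le
    have h2 := (h m hm1 k hk x 0 u hu.1 (hx'.mono le_rfl hu.2) hu2).1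
    rw [h0] at h2
    linarith
  obtain ⟨a, ha, ha'⟩ := exists_lower hx₀
  have key : ∀ j, j ≤ Fintype.card ι → ∃ b : ℝ, 0 < b ∧ ∀ k, Rates E ε k →
      ∀ (x : ℝ → ι → ℝ) (T : ℝ), ISol E k x 0 T → x 0 = x₀ →
        ∀ t ∈ Set.Icc 0 T, j ≤ (univ.filter fun i => b ≤ x t i).card := by
    intro j
    induction j with
    | zero => exact fun _ => ⟨1, one_pos, fun _ _ _ _ _ _ _ _ => Nat.zero_le _⟩
    | succ j ih =>
      intro hj
      obtain ⟨b, hb, hb'⟩ := ih (by omega)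
      obtain ⟨g, m₀, -, hm₀, h⟩ := stepDown hε hwr (|Real.log b| + |Real.log B|)
      set m := min m₀ (min (b / 3) (a / 2)) with hm
      have hm0 : 0 < m := by positivity
      have hm1 : m ≤ m₀ := min_le_left _ _
      have hm2 : m ≤ b / 3 := (min_le_right _ _).trans (min_le_left _ _)
      have hm3 : m ≤ a / 2 := (min_le_right _ _).trans (min_le_right _ _)
      have hn : (0 : ℝ) < Fintype.card ι := by exact_mod_cast Fintype.card_pos
      refine ⟨m / Fintype.card ι, by positivity, fun k hk x T hx h0 t ht => ?_⟩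
      have hx' := hx.mono le_rfl ht.2
      refine keep (b := b) (B := B) (by omega) ht.1 hx' hm0 (by linarith)
        (fun L hL u hu hxu h1 h2 => (h m hm0 hm1 L hL k hk x u t hu hxu h1 h2).1)
        (hb' k hk x t hx' h0) (hB k hk x t hx' h0) fun L hL => ?_
      obtain ⟨i, hi⟩ : L.Nonempty := Finset.card_pos.mp (by omega)
      rw [h0]
      have h1 : x₀ i ≤ ∑ j ∈ L, x₀ j := Finset.single_le_sum (fun j _ => (hx₀ j).le) hi
      linarith [ha' i]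
  obtain ⟨b, hb, hb'⟩ := key _ le_rfl
  exact ⟨b, B, hb, fun k hk x T hx h0 t ht i =>
    ⟨all_of_card (hb' k hk x T hx h0 t ht) i, hB k hk x T hx h0 t ht i⟩⟩

/-- What the a priori bounds give for one global solution. -/
lemma global_facts (hε : 0 < ε)
    (hwr : ∀ e ∈ E, Relation.ReflTransGen (fun u v => (u, v) ∈ E) e.2 e.1)
    {k : (ι → ℝ) × (ι → ℝ) → ℝ → ℝ} (hk : Rates E ε k) {x : ℝ → ι → ℝ}
    (hx : ∀ T, ISol E k x 0 T) :
    ∃ μ B : ℝ, 0 < μ ∧ ∀ t, 0 ≤ t → (∀ e ∈ E, μ ≤ mon (x t) e.1) ∧ ∑ i, x t i ≤ B := by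
  obtain ⟨b, B, hb, h⟩ := apriori hε hwr ((hx 0).pos 0 ⟨le_rfl, le_rfl⟩)
  obtain ⟨μ, hμ, hμ'⟩ := mon_lower E hb B
  refine ⟨μ, Fintype.card ι * B, hμ, fun t ht => ?_⟩
  have h1 := h k hk x t (hx t) rfl t ⟨ht, le_rfl⟩
  refine ⟨hμ' _ h1, ?_⟩
  have := Finset.sum_le_card_nsmul univ (x t) B fun i _ => (h1 i).2
  simpa using this

lemma exists_time {κ : ℝ} (hκ : 0 < κ) (T C : ℝ) : ∃ t, T ≤ t ∧ C < κ * (t - T) := by
  refine ⟨T + (|C| + 1) / κ, le_add_of_nonneg_right (by positivity), ?_⟩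
  rw [add_sub_cancel_left, mul_div_cancel₀ _ hκ.ne']
  linarith [le_abs_self C]

/-- **Eventual uniform bounds.** -/
theorem eventual (hε : 0 < ε)
    (hwr : ∀ e ∈ E, Relation.ReflTransGen (fun u v => (u, v) ∈ E) e.2 e.1)
    {x₀ : ι → ℝ} (hx₀ : ∀ i, 0 < x₀ i) :
    ∃ b B : ℝ, 0 < b ∧ ∀ k, Rates E ε k → ∀ x : ℝ → ι → ℝ, (∀ T, ISol E k x 0 T) →
      x 0 - x₀ ∈ Submodule.span ℝ ((fun e : (ι → ℝ) × (ι → ℝ) => e.2 - e.1) '' E) →
      ∃ T, 0 ≤ T ∧ ∀ t, T ≤ t → ∀ i, b ≤ x t i ∧ x t i ≤ B := by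
  rcases isEmpty_or_nonempty ι with hι | hι
  · exact ⟨1, 1, one_pos, fun _ _ _ _ _ => ⟨0, le_rfl, fun _ _ i => (hι.false i).elim⟩⟩
  have hspan : ∀ k (x : ℝ → ι → ℝ), (∀ T, ISol E k x 0 T) →
      x 0 - x₀ ∈ Submodule.span ℝ ((fun e : (ι → ℝ) × (ι → ℝ) => e.2 - e.1) '' E) →
      ∀ t, 0 ≤ t →
        x t - x₀ ∈ Submodule.span ℝ ((fun e : (ι → ℝ) × (ι → ℝ) => e.2 - e.1) '' E) := by
    intro k x hx h0 t ht
    have := Submodule.add_mem _ ((hx t).mem_span ⟨le_rfl, ht⟩ ⟨ht, le_rfl⟩) h0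
    simpa using this
  obtain ⟨B, hB⟩ : ∃ B : ℝ, ∀ k, Rates E ε k → ∀ x : ℝ → ι → ℝ, (∀ T, ISol E k x 0 T) →
      x 0 - x₀ ∈ Submodule.span ℝ ((fun e : (ι → ℝ) × (ι → ℝ) => e.2 - e.1) '' E) →
      ∃ T, 0 ≤ T ∧ ∀ t, T ≤ t → ∀ i, x t i ≤ B := by
    obtain ⟨g, m₀, hg, hm₀, h⟩ := stepUp hε hwr
    set m := max m₀ (4 * ∑ i, x₀ i) with hm
    have hm1 : m₀ ≤ m := le_max_left _ _
    have hm2 : 4 * ∑ i, x₀ i ≤ m := le_max_right _ _
    have hm0 : 0 < m := hm₀.trans_le hm1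
    refine ⟨2 * m, fun k hk x hx h0 => ?_⟩
    obtain ⟨μ, B, hμ, hfacts⟩ := global_facts hε hwr hk hx
    have key : ∀ N : ℕ, (∃ T, 0 ≤ T ∧ ∀ t, T ≤ t → ∑ i, x t i ≤ 2 * (2 ^ N * m)) →
        ∃ T, 0 ≤ T ∧ ∀ t, T ≤ t → ∑ i, x t i ≤ 2 * m := by
      intro N
      induction N with
      | zero => simp
      | succ N ih =>
        rintro ⟨T, hT, hT'⟩
        refine ih ?_
        have hp : (1 : ℝ) ≤ 2 ^ N := one_le_pow₀ (by norm_num)
        have hmm : m ≤ 2 ^ N * m := le_mul_of_one_le_left hm0.le hp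
        have he : (2 : ℝ) ^ (N + 1) * m = 2 * (2 ^ N * m) := by ring
        rw [he] at hT'
        set m' := 2 * (2 ^ N * m) with hm'
        have hsol : ∀ a b, T ≤ a → ISol E k x a b := fun a b ha => (hx b).mono (hT.trans ha) le_rfl
        obtain ⟨t₁, ht₁, ht₁'⟩ : ∃ t₁, T ≤ t₁ ∧ ∑ i, x t₁ i ≤ m' / 2 := by
          by_contra hcon
          push Not at hcon
          obtain ⟨t, ht, hlt⟩ := exists_time (κ := ε * μ / 2 * g) (by positivity) T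
            (∑ i, x T i + m' / 8)
          have h1 := (h m' (by linarith) k hk x T t ht (hsol T t le_rfl)
            fun s hs => hT' s hs.1).2 x₀ (fun i => (hx₀ i).le) μ hμ
            (fun s hs => (hfacts s (hT.trans hs.1)).1)
            (fun s hs => hspan k x hx h0 s (hT.trans hs.1))
            (fun s hs => by linarith [hcon s hs.1])
          linarith [hcon t ht]
        refine ⟨t₁, hT.trans ht₁, fun t ht => ?_⟩
        have h1 := (h m' (by linarith) k hk x t₁ t ht (hsol t₁ t ht₁)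
          fun s hs => hT' s (ht₁.trans hs.1)).1
        linarith
    obtain ⟨N, hN⟩ := pow_unbounded_of_one_lt (B / m) (by norm_num : (1 : ℝ) < 2)
    rw [div_lt_iff₀ hm0] at hN
    obtain ⟨T, hT, hT'⟩ := key N ⟨0, le_rfl, fun t ht => by
      have h1 := (hfacts t ht).2
      have h2 : 0 < (2 : ℝ) ^ N * m := by positivity
      linarith⟩
    refine ⟨T, hT, fun t ht i => le_trans ?_ (hT' t ht)⟩
    exact Finset.single_le_sum (fun j _ => ((hx t).pos t ⟨hT.trans ht, le_rfl⟩ j).le)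
      (Finset.mem_univ i)
  obtain ⟨a, ha, ha'⟩ := exists_lower hx₀
  have key : ∀ j, j ≤ Fintype.card ι → ∃ b : ℝ, 0 < b ∧ ∀ k, Rates E ε k →
      ∀ x : ℝ → ι → ℝ, (∀ T, ISol E k x 0 T) →
        x 0 - x₀ ∈ Submodule.span ℝ ((fun e : (ι → ℝ) × (ι → ℝ) => e.2 - e.1) '' E) →
        ∃ T, 0 ≤ T ∧ ∀ t, T ≤ t → j ≤ (univ.filter fun i => b ≤ x t i).card := by
    intro j
    induction j with
    | zero => exact fun _ => ⟨1, one_pos, fun _ _ _ _ _ => ⟨0, le_rfl, fun _ _ => Nat.zero_le _⟩⟩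
    | succ j ih =>
      intro hj
      obtain ⟨b, hb, hb'⟩ := ih (by omega)
      obtain ⟨g, m₀, hg, hm₀, h⟩ := stepDown hε hwr (|Real.log b| + |Real.log B|)
      set m := min m₀ (min (b / 3) (a / 3)) with hm
      have hm0 : 0 < m := by positivity
      have hm1 : m ≤ m₀ := min_le_left _ _
      have hm2 : m ≤ b / 3 := (min_le_right _ _).trans (min_le_left _ _)
      have hm3 : m ≤ a / 3 := (min_le_right _ _).trans (min_le_right _ _)
      have hn : (0 : ℝ) < Fintype.card ι := by exact_mod_cast Fintype.card_pos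
      refine ⟨m / Fintype.card ι, by positivity, fun k hk x hx h0 => ?_⟩
      obtain ⟨μ, B₁, hμ, hfacts⟩ := global_facts hε hwr hk hx
      obtain ⟨T₁, hT₁, hT₁'⟩ := hb' k hk x hx h0
      obtain ⟨T₂, -, hT₂'⟩ := hB k hk x hx h0
      set T := max T₁ T₂ with hTdef
      have hT : 0 ≤ T := hT₁.trans (le_max_left _ _)
      have hc1 : ∀ t, T ≤ t → j ≤ (univ.filter fun i => b ≤ x t i).card :=
        fun t ht => hT₁' t ((le_max_left _ _).trans ht)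
      have hc2 : ∀ t, T ≤ t → ∀ i, x t i ≤ B := fun t ht => hT₂' t ((le_max_right _ _).trans ht)
      have hsol : ∀ a b, T ≤ a → ISol E k x a b := fun a b ha => (hx b).mono (hT.trans ha) le_rfl
      have hpos : ∀ t, T ≤ t → ∀ i, 0 ≤ x t i := fun t ht i =>
        ((hx t).pos t ⟨hT.trans ht, le_rfl⟩ i).le
      obtain ⟨t₁, ht₁, ht₁'⟩ : ∃ t₁, T ≤ t₁ ∧
          ∀ L : Finset ι, L.card + j = Fintype.card ι → 2 * m ≤ ∑ i ∈ L, x t₁ i := by
        by_cases hT0 : ∀ L : Finset ι, L.card + j = Fintype.card ι → 2 * m ≤ ∑ i ∈ L, x T i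
        · exact ⟨T, le_rfl, hT0⟩
        push Not at hT0
        obtain ⟨L, hL, hL'⟩ := hT0
        have hLne : L.Nonempty := Finset.card_pos.mp (by omega)
        obtain ⟨t₂, ht₂, ht₂'⟩ : ∃ t₂, T ≤ t₂ ∧ 2 * m ≤ ∑ i ∈ L, x t₂ i := by
          by_contra hcon
          push Not at hcon
          obtain ⟨t, ht, hlt⟩ := exists_time (κ := ε * μ / 2 * g) (by positivity) T (3 * m)
          have h1 := (h m hm0 hm1 L hLne k hk x T t ht (hsol T t le_rfl)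
            (fun s hs => (hcon s hs.1).le)
            fun s hs i hi => abs_log_le hb (off_large (hpos s hs.1) (hc1 s hs.1) hL
              (by linarith [hcon s hs.1]) i hi) (hc2 s hs.1 i)).2 x₀ (fun i => (hx₀ i).le) μ hμ
            (fun s hs => (hfacts s (hT.trans hs.1)).1)
            (fun s hs => hspan k x hx h0 s (hT.trans hs.1))
            (fun s hs => by
              obtain ⟨i, hi⟩ := hLne
              have h2 : x₀ i ≤ ∑ j ∈ L, x₀ j := Finset.single_le_sum (fun j _ => (hx₀ j).le) hi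
              linarith [hcon s hs.1, ha' i])
          have h2 : 0 ≤ ∑ i ∈ L, x T i := Finset.sum_nonneg fun i _ => hpos T le_rfl i
          linarith [hcon t ht]
        obtain ⟨u, hu, hu1, -⟩ := exists_first ht₂ ((hsol T t₂ le_rfl).cont_sum L) hL'.le ht₂'
        refine ⟨u, hu.1, fun L' hL'' => ?_⟩
        by_cases hLL : L' ⊆ L
        · rw [Finset.eq_of_subset_of_card_le hLL (by omega)]
          exact hu1.ge
        · obtain ⟨i, hi, hi'⟩ := Finset.not_subset.mp hLL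
          have h1 := off_large (hpos u hu.1) (hc1 u hu.1) hL (by linarith) i hi'
          have h2 : x u i ≤ ∑ j ∈ L', x u j := Finset.single_le_sum (fun j _ => hpos u hu.1 j) hi
          linarith
      refine ⟨t₁, hT.trans ht₁, fun t ht => ?_⟩
      exact keep (b := b) (B := B) (by omega) ht (hsol t₁ t ht₁) hm0 (by linarith)
        (fun L hL u hu hxu h1 h2 => (h m hm0 hm1 L hL k hk x u t hu hxu h1 h2).1)
        (fun s hs => hc1 s (ht₁.trans hs.1)) (fun s hs => hc2 s (ht₁.trans hs.1)) ht₁'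
  obtain ⟨b, hb, hb'⟩ := key _ le_rfl
  refine ⟨b, B, hb, fun k hk x hx h0 => ?_⟩
  obtain ⟨T₁, hT₁, hT₁'⟩ := hb' k hk x hx h0
  obtain ⟨T₂, -, hT₂'⟩ := hB k hk x hx h0
  exact ⟨max T₁ T₂, hT₁.trans (le_max_left _ _), fun t ht i =>
    ⟨all_of_card (hT₁' t ((le_max_left _ _).trans ht)) i, hT₂' t ((le_max_right _ _).trans ht) i⟩⟩

end Pool.Agent.Lib.MP_5f8094_an
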