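import Mathlib

/-!
The cut argument: in a weakly reversible graph the flux increases every vertex potential that is
ordered against the weights of the sources.
-/

set_option autoImplicit false

namespace Pool.Agent.Lib.MP_5f8094_an

open Finset MeasureTheory

/-- The indicator of `θ ≤ a`. -/
noncomputable def ind (a θ : ℝ) : ℝ := Set.indicator {x | x ≤ a} (fun _ => (1 : ℝ)) θ

lemma ind_of_le {a θ : ℝ} (h : θ ≤ a) : ind a θ = 1 := by simp [ind, h]
lemma ind_of_lt {a θ : ℝ} (h : a < θ) : ind a θ = 0 := by simp [ind, h]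

lemma ind_antitone (a : ℝ) : Antitone (ind a) := by
  intro x y hxy
  rcases le_or_gt y a with h | h
  · rw [ind_of_le h, ind_of_le (hxy.trans h)]
  · rw [ind_of_lt h]
    rcases le_or_gt x a with h' | h'
    · rw [ind_of_le h']; norm_num
    · rw [ind_of_lt h']

lemma ind_integrable (a A B : ℝ) : IntervalIntegrable (ind a) volume A B :=
  (ind_antitone a).intervalIntegrable

lemma ind_integral {a A B : ℝ} (h : a ∈ Set.Icc A B) : ∫ θ in A..B, ind a θ = a - A := by
  unfold ind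
  rw [intervalIntegral.integral_indicator h]
  simp

variable {α : Type*}

lemma exists_up {E : Finset (α × α)} (φ : α → ℝ) (θ : ℝ) {a b : α}
    (h : Relation.ReflTransGen (fun u v => (u, v) ∈ E) a b) (ha : φ a < θ) (hb : θ ≤ φ b) :
    ∃ e ∈ E, φ e.1 < θ ∧ θ ≤ φ e.2 := by
  induction h with
  | refl => exact absurd hb (not_le.mpr ha)
  | @tail u v _ huv ih =>
    rcases lt_or_ge (φ u) θ with h' | h'
    · exact ⟨(u, v), huv, h', hb⟩
    · exact ih h'

lemma cut_ge {E : Finset (α × α)} (φ : α → ℝ) (m : α × α → ℝ) {μ : ℝ} (hμ : 0 < μ)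
    (h1 : ∀ e ∈ E, μ ≤ m e)
    (h2 : ∀ e ∈ E, ∀ e' ∈ E, φ e'.1 < φ e.1 → 2 * E.card * m e ≤ m e') (θ : ℝ)
    {e₀ : α × α} (he₀ : e₀ ∈ E) (hu1 : φ e₀.1 < θ) (hu2 : θ ≤ φ e₀.2) :
    μ / 2 ≤ ∑ e ∈ E, m e * (ind (φ e.2) θ - ind (φ e.1) θ) := by
  classical
  have hc : (0 : ℝ) < E.card := by exact_mod_cast Finset.card_pos.mpr ⟨e₀, he₀⟩
  have hm0 := h1 e₀ he₀
  have hterm : ∀ e ∈ E, (if e = e₀ then m e₀ else 0) - m e₀ / (2 * E.card) ≤
      m e * (ind (φ e.2) θ - ind (φ e.1) θ) := by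
    intro e he
    have hq : 0 ≤ m e₀ / (2 * E.card) := div_nonneg (by linarith) (by positivity)
    have hme := h1 e he
    by_cases hee : e = e₀
    · subst hee
      rw [if_pos rfl, ind_of_le hu2, ind_of_lt hu1]
      linarith
    · rw [if_neg hee]
      rcases le_or_gt θ (φ e.1) with ha | ha
      · have h3 := h2 e he e₀ he₀ (hu1.trans_le ha)
        have h4 : m e ≤ m e₀ / (2 * E.card) := by
          rw [le_div_iff₀ (by positivity)]; linarith
        rw [ind_of_le ha]
        rcases le_or_gt θ (φ e.2) with hb | hb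
        · rw [ind_of_le hb]; linarith
        · rw [ind_of_lt hb]; linarith
      · rw [ind_of_lt ha]
        rcases le_or_gt θ (φ e.2) with hb | hb
        · rw [ind_of_le hb]; linarith
        · rw [ind_of_lt hb]; linarith
  have h5 := Finset.sum_le_sum hterm
  rw [Finset.sum_sub_distrib, Finset.sum_ite_eq' E e₀, if_pos he₀, Finset.sum_const,
    nsmul_eq_mul] at h5
  have h6 : (E.card : ℝ) * (m e₀ / (2 * E.card)) = m e₀ / 2 := by field_simp
  linarith

theorem flux {E : Finset (α × α)}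
    (hwr : ∀ e ∈ E, Relation.ReflTransGen (fun u v => (u, v) ∈ E) e.2 e.1)
    (φ : α → ℝ) (m : α × α → ℝ) {μ : ℝ} (hμ : 0 < μ) (h1 : ∀ e ∈ E, μ ≤ m e)
    (h2 : ∀ e ∈ E, ∀ e' ∈ E, φ e'.1 < φ e.1 → 2 * E.card * m e ≤ m e')
    {e₁ : α × α} (he₁ : e₁ ∈ E) :
    μ / 2 * |φ e₁.2 - φ e₁.1| ≤ ∑ e ∈ E, m e * (φ e.2 - φ e.1) := by
  set B : ℝ := ∑ e ∈ E, (|φ e.1| + |φ e.2|) with hB
  have hB0 : 0 ≤ B := Finset.sum_nonneg fun e _ => by positivity
  have hmem : ∀ e ∈ E, φ e.1 ∈ Set.Icc (-B) B ∧ φ e.2 ∈ Set.Icc (-B) B := by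
    intro e he
    have h3 : |φ e.1| + |φ e.2| ≤ B :=
      Finset.single_le_sum (f := fun e : α × α => |φ e.1| + |φ e.2|)
        (fun e _ => by positivity) he
    have h4 := abs_nonneg (φ e.1)
    have h5 := abs_nonneg (φ e.2)
    exact ⟨abs_le.mp (by linarith), abs_le.mp (by linarith)⟩
  have hint : ∀ e ∈ E, IntervalIntegrable
      (fun θ => m e * (ind (φ e.2) θ - ind (φ e.1) θ)) volume (-B) B := fun e _ =>
    ((ind_integrable _ _ _).sub (ind_integrable _ _ _)).const_mul _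
  have hR : ∑ e ∈ E, m e * (φ e.2 - φ e.1) =
      ∫ θ in (-B)..B, ∑ e ∈ E, m e * (ind (φ e.2) θ - ind (φ e.1) θ) := by
    rw [intervalIntegral.integral_finsetSum hint]
    refine Finset.sum_congr rfl fun e he => ?_
    rw [intervalIntegral.integral_const_mul,
      intervalIntegral.integral_sub (ind_integrable _ _ _) (ind_integrable _ _ _),
      ind_integral (hmem e he).1, ind_integral (hmem e he).2]
    ring
  set hi := max (φ e₁.1) (φ e₁.2) with hhi
  set lo := min (φ e₁.1) (φ e₁.2) with hlo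
  have hhi' : hi ∈ Set.Icc (-B) B := by
    rcases max_choice (φ e₁.1) (φ e₁.2) with h | h <;> rw [hhi, h]
    exacts [(hmem e₁ he₁).1, (hmem e₁ he₁).2]
  have hlo' : lo ∈ Set.Icc (-B) B := by
    rcases min_choice (φ e₁.1) (φ e₁.2) with h | h <;> rw [hlo, h]
    exacts [(hmem e₁ he₁).1, (hmem e₁ he₁).2]
  have hL : μ / 2 * |φ e₁.2 - φ e₁.1| = ∫ θ in (-B)..B, μ / 2 * (ind hi θ - ind lo θ) := by
    rw [intervalIntegral.integral_const_mul,
      intervalIntegral.integral_sub (ind_integrable _ _ _) (ind_integrable _ _ _),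
      ind_integral hhi', ind_integral hlo', hhi, hlo, ← max_sub_min_eq_abs]
    ring
  rw [hL, hR]
  refine intervalIntegral.integral_mono_on (by linarith)
    (((ind_integrable _ _ _).sub (ind_integrable _ _ _)).const_mul _) ?_ fun θ _ => ?_
  · have := IntervalIntegrable.sum E hint
    refine this.congr fun θ _ => ?_
    simp
  by_cases hex : ∃ e ∈ E, φ e.1 < θ ∧ θ ≤ φ e.2
  · obtain ⟨e₀, he₀, hu1, hu2⟩ := hex
    refine le_trans ?_ (cut_ge φ m hμ h1 h2 θ he₀ hu1 hu2)
    have h3 : ind hi θ - ind lo θ ≤ 1 := by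
      rcases le_or_gt θ hi with ha | ha <;> rcases le_or_gt θ lo with hb | hb <;>
        simp [ind_of_le, ind_of_lt, ha, hb]
    nlinarith
  · have hsame : ∀ e ∈ E, ind (φ e.2) θ = ind (φ e.1) θ := by
      intro e he
      rcases le_or_gt θ (φ e.1) with ha | ha <;> rcases le_or_gt θ (φ e.2) with hb | hb
      · rw [ind_of_le ha, ind_of_le hb]
      · exact absurd (exists_up φ θ (hwr e he) hb ha) hex
      · exact absurd ⟨e, he, ha, hb⟩ hex
      · rw [ind_of_lt ha, ind_of_lt hb]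
    have h3 : ind hi θ = ind lo θ := by
      have h4 := hsame e₁ he₁
      rcases le_total (φ e₁.1) (φ e₁.2) with h | h
      · rw [hhi, hlo, max_eq_right h, min_eq_left h, h4]
      · rw [hhi, hlo, max_eq_left h, min_eq_right h, h4]
    rw [h3, Finset.sum_eq_zero fun e he => by rw [hsame e he]; simp]
    simp

end Pool.Agent.Lib.MP_5f8094_an
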