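import Pool.Agent.Lib.MP_5f8094_an.Dyn
import Pool.Agent.Lib.MP_5f8094_an.Carath

/-!
Global existence, extension of solutions and permanence.
-/

set_option autoImplicit false

namespace Pool.Agent.Lib.MP_5f8094_an

open Finset MeasureTheory

variable {ι : Type} [Fintype ι] [DecidableEq ι]
variable {E : Finset ((ι → ℝ) × (ι → ℝ))} {ε : ℝ} {k : (ι → ℝ) × (ι → ℝ) → ℝ → ℝ}

/-- Coordinatewise projection to the box `[a, B]`. -/
def clamp (a B : ℝ) (y : ι → ℝ) : ι → ℝ := fun i => max a (min (y i) B)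

omit [Fintype ι] [DecidableEq ι] in
lemma clamp_eq {a B : ℝ} {y : ι → ℝ} (h : ∀ i, a ≤ y i ∧ y i ≤ B) : clamp a B y = y := by
  funext i
  simp [clamp, (h i).1, (h i).2]

omit [Fintype ι] [DecidableEq ι] in
lemma clamp_mem {a B : ℝ} (h : a ≤ B) (y : ι → ℝ) (i : ι) :
    a ≤ clamp a B y i ∧ clamp a B y i ≤ B :=
  ⟨le_max_left _ _, max_le h (min_le_right _ _)⟩

omit [DecidableEq ι] in
lemma clamp_dist (a B : ℝ) (y z : ι → ℝ) : dist (clamp a B y) (clamp a B z) ≤ dist y z := by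
  refine (dist_pi_le_iff dist_nonneg).mpr fun i => le_trans ?_ (dist_le_pi_dist y z i)
  simp only [clamp, Real.dist_eq]
  refine (abs_max_sub_max_le_max _ _ _ _).trans (max_le (by simp) ?_)
  simpa using abs_min_sub_min_le_max (y i) B (z i) B

omit [DecidableEq ι] in
lemma clamp_continuous (a B : ℝ) : Continuous (clamp a B : (ι → ℝ) → ι → ℝ) :=
  (LipschitzWith.mk_one (clamp_dist a B)).continuous

omit [DecidableEq ι] in
lemma mon_clamp {a B : ℝ} (ha : 0 < a) (h : a ≤ B) (s : ι → ℝ) :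
    ∃ C K : ℝ, 0 ≤ K ∧ (∀ y, |mon (clamp a B y) s| ≤ C) ∧
      ∀ y z, |mon (clamp a B y) s - mon (clamp a B z) s| ≤ K * ‖y - z‖ := by
  have hmem : ∀ y : ι → ℝ, clamp a B y ∈ Set.Icc (fun _ : ι => a) (fun _ => B) := fun y =>
    ⟨fun i => (clamp_mem h y i).1, fun i => (clamp_mem h y i).2⟩
  have hcd : ContDiffOn ℝ 1 (fun z : ι → ℝ => mon z s) (Set.Icc (fun _ : ι => a) fun _ => B) :=
    contDiffOn_prod fun i _ => (contDiff_apply ℝ ℝ i).contDiffOn.rpow_const_of_ne
      fun z hz => (ha.trans_le (hz.1 i)).ne'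
  obtain ⟨K, hK⟩ := hcd.exists_lipschitzOnWith (by decide) (convex_Icc _ _) isCompact_Icc
  obtain ⟨C, hC⟩ := isCompact_Icc.exists_bound_of_continuousOn hcd.continuousOn
  refine ⟨C, K, K.2, fun y => hC _ (hmem y), fun y z => ?_⟩
  have h1 := hK.dist_le_mul _ (hmem y) _ (hmem z)
  rw [Real.dist_eq] at h1
  refine h1.trans (mul_le_mul_of_nonneg_left ?_ K.2)
  rw [← dist_eq_norm]
  exact clamp_dist a B y z

/-- The clamped vector field. -/
noncomputable def cfield (E : Finset ((ι → ℝ) × (ι → ℝ))) (k : (ι → ℝ) × (ι → ℝ) → ℝ → ℝ)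
    (a B : ℝ) (t : ℝ) (y : ι → ℝ) : ι → ℝ :=
  ∑ e ∈ E, (k e t * mon (clamp a B y) e.1) • (e.2 - e.1)

omit [DecidableEq ι] in
lemma cfield_bounds (hε : 0 < ε) (hk : Rates E ε k) {a B : ℝ} (ha : 0 < a) (h : a ≤ B) :
    ∃ C K : ℝ, 0 ≤ K ∧ (∀ t y, ‖cfield E k a B t y‖ ≤ C) ∧
      ∀ t y z, ‖cfield E k a B t y - cfield E k a B t z‖ ≤ K * ‖y - z‖ := by
  choose C K hK0 hC hK using fun s : ι → ℝ => mon_clamp ha h s
  have hk' : ∀ e ∈ E, ∀ t, |k e t| ≤ 1 / ε := fun e he t => by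
    have := hk.bd e he t
    rw [abs_of_pos (by linarith)]
    exact this.2
  refine ⟨∑ e ∈ E, 1 / ε * C e.1 * ‖e.2 - e.1‖, ∑ e ∈ E, 1 / ε * K e.1 * ‖e.2 - e.1‖,
    Finset.sum_nonneg fun e _ => by have := hK0 e.1; positivity, fun t y => ?_, fun t y z => ?_⟩
  · refine (norm_sum_le _ _).trans (Finset.sum_le_sum fun e he => ?_)
    rw [norm_smul, Real.norm_eq_abs, abs_mul]
    exact mul_le_mul_of_nonneg_right
      (mul_le_mul (hk' e he t) (hC _ _) (abs_nonneg _) (by positivity)) (norm_nonneg _)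
  · unfold cfield
    rw [← Finset.sum_sub_distrib, Finset.sum_mul]
    refine (norm_sum_le _ _).trans (Finset.sum_le_sum fun e he => ?_)
    rw [← sub_smul, ← mul_sub, norm_smul, Real.norm_eq_abs, abs_mul]
    have h1 := mul_le_mul (hk' e he t) (hK e.1 y z) (abs_nonneg _) (by positivity)
    refine (mul_le_mul_of_nonneg_right h1 (norm_nonneg _)).trans (le_of_eq ?_)
    ring

omit [DecidableEq ι] in
lemma continuous_mon_clamp {a B : ℝ} (ha : 0 < a) (h : a ≤ B) {y : ℝ → ι → ℝ}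
    (hy : Continuous y) (s : ι → ℝ) : Continuous fun t => mon (clamp a B (y t)) s := by
  rw [← continuousOn_univ]
  exact continuousOn_mon ((clamp_continuous a B).comp hy).continuousOn
    (fun t _ i => ha.trans_le (clamp_mem h _ i).1) s

omit [DecidableEq ι] in
lemma cfield_meas (hk : Rates E ε k) {a B : ℝ} (ha : 0 < a) (h : a ≤ B) {y : ℝ → ι → ℝ}
    (hy : Continuous y) : AEStronglyMeasurable (fun t => cfield E k a B t (y t)) volume := by
  unfold cfield
  refine Finset.aestronglyMeasurable_fun_sum _ fun e he => ?_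
  exact ((hk.meas e he).aestronglyMeasurable.mul
    (continuous_mon_clamp ha h hy e.1).aestronglyMeasurable).smul_const _

omit [DecidableEq ι] in
/-- The integral of the clamped field along a curve inside the box. -/
lemma integral_cfield (hε : 0 < ε) (hk : Rates E ε k) {a B : ℝ} (ha : 0 < a) {y : ℝ → ι → ℝ}
    {u v : ℝ} (hy : ContinuousOn y (Set.uIcc u v))
    (hbox : ∀ t ∈ Set.uIcc u v, ∀ i, a ≤ y t i ∧ y t i ≤ B) :
    IntervalIntegrable (fun s => cfield E k a B s (y s)) volume u v ∧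
    ∫ s in u..v, cfield E k a B s (y s) =
      ∑ e ∈ E, (∫ s in u..v, k e s * mon (y s) e.1) • (e.2 - e.1) := by
  have hint : ∀ e ∈ E, IntervalIntegrable
      (fun s => (k e s * mon (y s) e.1) • (e.2 - e.1)) volume u v := fun e he =>
    ((hk.intervalIntegrable hε he u v).mul_continuousOn
      (continuousOn_mon hy (fun t ht i => ha.trans_le (hbox t ht i).1) _)).smul_continuousOn
        continuousOn_const
  have heq : Set.EqOn (fun s => cfield E k a B s (y s))
      (fun s => ∑ e ∈ E, (k e s * mon (y s) e.1) • (e.2 - e.1)) (Set.uIcc u v) := fun s hs => by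
    simp only [cfield, clamp_eq (hbox s hs)]
  constructor
  · refine (IntervalIntegrable.sum E hint).congr fun s hs => ?_
    refine Eq.trans ?_ (heq (Set.uIoc_subset_uIcc hs)).symm
    simp
  · rw [intervalIntegral.integral_congr heq, intervalIntegral.integral_finsetSum hint]
    exact Finset.sum_congr rfl fun e _ => intervalIntegral.integral_smul_const _ _

/-- **Global existence and uniqueness.** -/
theorem exists_global (hε : 0 < ε)
    (hwr : ∀ e ∈ E, Relation.ReflTransGen (fun u v => (u, v) ∈ E) e.2 e.1)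
    (hk : Rates E ε k) {x₀ : ι → ℝ} (hx₀ : ∀ i, 0 < x₀ i) :
    ∃ (y : ℝ → ι → ℝ) (C : NNReal), y 0 = x₀ ∧ (∀ t, 0 ≤ t → ∀ i, 0 < y t i) ∧
      LipschitzOnWith C y (Set.Ici 0) ∧
      (∀ᵐ t, 0 < t → HasDerivAt y (∑ e ∈ E, (k e t * mon (y t) e.1) • (e.2 - e.1)) t) ∧
      ∀ (x : ℝ → ι → ℝ) (T : ℝ), 0 ≤ T → ISol E k x 0 T → x 0 = x₀ → x T = y T := by
  obtain ⟨b, B₀, hb, hap⟩ := apriori hε hwr hx₀
  set B := max b B₀ with hB
  have hbB : b ≤ B := le_max_left _ _
  have hap' : ∀ (x : ℝ → ι → ℝ) (T : ℝ), ISol E k x 0 T → x 0 = x₀ →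
      ∀ t ∈ Set.Icc 0 T, ∀ i, b ≤ x t i ∧ x t i ≤ B := fun x T h1 h2 t ht i =>
    ⟨(hap k hk x T h1 h2 t ht i).1, (hap k hk x T h1 h2 t ht i).2.trans (le_max_right _ _)⟩
  have ha : 0 < b / 2 := by linarith
  have haB : b / 2 ≤ B + b / 2 := by linarith
  obtain ⟨C, K, hK0, hC, hK⟩ := cfield_bounds hε hk ha haB
  obtain ⟨y, hy, hyeq⟩ := picard hK0 hC hK (fun y hy => cfield_meas hk ha haB hy) x₀
  have hy0 : y 0 = x₀ := by simpa using hyeq 0 le_rfl
  have hint : ∀ u v, IntervalIntegrable (fun s => cfield E k (b / 2) (B + b / 2) s (y s))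
      volume u v := intervalIntegrable_of_bound (fun t => hC t _) (cfield_meas hk ha haB hy)
  have hdiff : ∀ u v, 0 ≤ u → 0 ≤ v →
      y v - y u = ∫ s in u..v, cfield E k (b / 2) (B + b / 2) s (y s) := fun u v hu hv => by
    rw [hyeq u hu, hyeq v hv, add_sub_add_left_eq_sub,
      intervalIntegral.integral_interval_sub_left (hint _ _) (hint _ _)]
  have hsol : ∀ T, (∀ t ∈ Set.Icc 0 T, ∀ i, b / 2 ≤ y t i ∧ y t i ≤ B + b / 2) →
      ISol E k y 0 T := fun T hT =>
    ⟨hy.continuousOn, fun t ht i => ha.trans_le (hT t ht i).1, fun u hu v hv => by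
      rw [hdiff u v hu.1 hv.1]
      exact (integral_cfield hε hk ha hy.continuousOn
        fun t ht => hT t (Set.uIcc_subset_Icc hu hv ht)).2⟩
  -- the solution never leaves the box
  have hnear : ∀ z : ι → ℝ, dist z (clamp b B z) ≤ b / 2 →
      ∀ i, b / 2 ≤ z i ∧ z i ≤ B + b / 2 := fun z hz i => by
    have h1 := (dist_le_pi_dist z (clamp b B z) i).trans hz
    have h2 := clamp_mem hbB z i
    rw [Real.dist_eq, abs_le] at h1
    constructor <;> linarith [h1.1, h1.2, h2.1, h2.2]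
  have hx₀box : ∀ i, b ≤ x₀ i ∧ x₀ i ≤ B := by
    have h1 : ISol E k (fun _ => x₀) 0 0 :=
      ⟨continuousOn_const, fun _ _ => hx₀, fun u hu v hv => by
        have h2 : u = 0 := le_antisymm hu.2 hu.1
        have h3 : v = 0 := le_antisymm hv.2 hv.1
        simp [h2, h3]⟩
    exact hap' _ 0 h1 rfl 0 ⟨le_rfl, le_rfl⟩
  have hG : Continuous fun t => dist (y t) (clamp b B (y t)) :=
    hy.dist ((clamp_continuous b B).comp hy)
  have hstay : ∀ t, 0 ≤ t → ∀ i, b / 2 ≤ y t i ∧ y t i ≤ B + b / 2 := by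
    intro t ht
    refine hnear _ ?_
    by_contra hcon
    obtain ⟨u, hu, hu1, hu2⟩ := exists_first ht hG.continuousOn (c := b / 2)
      (by rw [hy0, clamp_eq hx₀box, dist_self]; exact ha.le) (not_le.mp hcon).le
    have h1 := hap' y u (hsol u fun s hs => hnear _ (hu2 s hs)) hy0 u ⟨hu.1, le_rfl⟩
    rw [clamp_eq h1, dist_self] at hu1
    linarith
  have hC0 : 0 ≤ C := (norm_nonneg _).trans (hC 0 0)
  refine ⟨y, ⟨C, hC0⟩, hy0, fun t ht i => ha.trans_le (hstay t ht i).1, ?_, ?_, ?_⟩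
  · refine LipschitzOnWith.of_dist_le_mul fun v hv u hu => ?_
    rw [dist_eq_norm, hdiff u v hu hv, Real.dist_eq]
    exact intervalIntegral.norm_integral_le_of_norm_le_const fun s _ => hC s _
  · have hloc : LocallyIntegrable (fun s => cfield E k (b / 2) (B + b / 2) s (y s)) volume := by
      intro t
      refine ⟨Set.Ioc (t - 1) (t + 1), Ioc_mem_nhds (by linarith) (by linarith), ?_⟩
      exact (hint (t - 1) (t + 1)).1
    filter_upwards [LocallyIntegrable.ae_hasDerivAt_integral hloc] with t ht ht0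
    have h1 := (ht 0).const_add x₀
    have h2 : cfield E k (b / 2) (B + b / 2) t (y t) =
        ∑ e ∈ E, (k e t * mon (y t) e.1) • (e.2 - e.1) := by
      simp only [cfield, clamp_eq (hstay t ht0.le)]
    rw [h2] at h1
    refine h1.congr_of_eventuallyEq ?_
    filter_upwards [Ioi_mem_nhds ht0] with s hs
    exact hyeq s (le_of_lt hs)
  · intro x T hT hx hx0
    have hxbox : ∀ t ∈ Set.Icc 0 T, ∀ i, b / 2 ≤ x t i ∧ x t i ≤ B + b / 2 := fun t ht i => by
      have := hap' x T hx hx0 t ht i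
      constructor <;> linarith [this.1, this.2]
    have hdc : ContinuousOn (fun t => ‖x t - y t‖) (Set.Icc 0 T) :=
      (hx.cont.sub hy.continuousOn).norm
    have := eq_zero_of_le_integral (d := fun t => ‖x t - y t‖) hK0 hT hdc
      (fun _ _ => norm_nonneg _) fun t ht => ?_
    · exact sub_eq_zero.mp (norm_eq_zero.mp this)
    have hsub : Set.uIcc 0 t ⊆ Set.Icc 0 T := Set.uIcc_subset_Icc ⟨le_rfl, hT⟩ ht
    obtain ⟨h1, h2⟩ := integral_cfield hε hk ha (hx.cont.mono hsub) fun s hs => hxbox s (hsub hs)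
    have h3 : x t - y t = ∫ s in (0 : ℝ)..t, (cfield E k (b / 2) (B + b / 2) s (x s) -
        cfield E k (b / 2) (B + b / 2) s (y s)) := by
      rw [intervalIntegral.integral_sub h1 (hint _ _), h2, ← hx.eq 0 ⟨le_rfl, hT⟩ t ht,
        ← hdiff 0 t le_rfl ht.1, hx0, hy0]
      abel
    beta_reduce
    rw [h3]
    exact intervalIntegral.norm_integral_le_of_norm_le ht.1
      (Filter.Eventually.of_forall fun s _ => hK s _ _)
      ((hdc.mono hsub).intervalIntegrable.const_mul K)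

omit [DecidableEq ι] in
/-- An absolutely continuous solution solves the integrated equation. -/
lemma isol_of_ac (hε : 0 < ε) (hk : Rates E ε k) {I : Set ℝ} {x : ℝ → ι → ℝ}
    (hI : I.OrdConnected) (hpos : ∀ t ∈ I, ∀ i, 0 < x t i)
    (hac : ∀ a ∈ I, ∀ b ∈ I, AbsolutelyContinuousOnInterval x a b)
    (hd : ∀ᵐ t, t ∈ I → HasDerivAt x (∑ e ∈ E, (k e t * mon (x t) e.1) • (e.2 - e.1)) t)
    (h0 : (0 : ℝ) ∈ I) {T : ℝ} (hT : T ∈ I) (hT0 : 0 ≤ T) : ISol E k x 0 T := by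
  have hsub : Set.Icc 0 T ⊆ I := hI.out h0 hT
  have hcont : ContinuousOn x (Set.Icc 0 T) := by
    have := (hac 0 h0 T hT).continuousOn
    rwa [Set.uIcc_of_le hT0] at this
  refine ⟨hcont, fun t ht => hpos t (hsub ht), fun a ha b hb => ?_⟩
  have hsub' : Set.uIcc a b ⊆ Set.Icc 0 T := Set.uIcc_subset_Icc ha hb
  funext i
  have h1 := (ac_apply (hac a (hsub ha) b (hsub hb)) i).integral_deriv_eq_sub
  have h2 : ∫ t in a..b, deriv (fun t => x t i) t =
      ∫ t in a..b, ∑ e ∈ E, k e t * mon (x t) e.1 * (e.2 i - e.1 i) := by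
    refine intervalIntegral.integral_congr_ae ?_
    filter_upwards [hd] with t ht htm
    have h3 := (hasDerivAt_pi.mp (ht (hsub (hsub' (Set.uIoc_subset_uIcc htm)))) i).deriv
    rw [h3]
    simp [Finset.sum_apply]
  rw [Pi.sub_apply, ← h1, h2, intervalIntegral.integral_finsetSum fun e he =>
    ((hk.intervalIntegrable hε he a b).mul_continuousOn
      (continuousOn_mon (hcont.mono hsub') (fun t ht => hpos t (hsub (hsub' ht))) _)).mul_const _]
  simp [Finset.sum_apply]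

/-- **Every solution extends to all positive times.** -/
theorem extend (hε : 0 < ε)
    (hwr : ∀ e ∈ E, Relation.ReflTransGen (fun u v => (u, v) ∈ E) e.2 e.1)
    (hk : Rates E ε k) {I : Set ℝ} {x : ℝ → ι → ℝ}
    (hI : I.OrdConnected) (hpos : ∀ t ∈ I, ∀ i, 0 < x t i)
    (hac : ∀ a ∈ I, ∀ b ∈ I, AbsolutelyContinuousOnInterval x a b)
    (hd : ∀ᵐ t, t ∈ I → HasDerivAt x (∑ e ∈ E, (k e t * mon (x t) e.1) • (e.2 - e.1)) t)
    (h0 : (0 : ℝ) ∈ I) :
    ∃ z : ℝ → ι → ℝ, ((I ∪ Set.Ici 0).OrdConnected ∧ (∀ t ∈ I ∪ Set.Ici 0, ∀ i, 0 < z t i) ∧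
      (∀ a ∈ I ∪ Set.Ici 0, ∀ b ∈ I ∪ Set.Ici 0, AbsolutelyContinuousOnInterval z a b) ∧
      ∀ᵐ t, t ∈ I ∪ Set.Ici 0 →
        HasDerivAt z (∑ e ∈ E, (k e t * mon (z t) e.1) • (e.2 - e.1)) t) ∧
      Set.EqOn z x I := by
  obtain ⟨y, C, hy0, hypos, hylip, hyd, huniq⟩ := exists_global hε hwr hk (hpos 0 h0)
  set z : ℝ → ι → ℝ := fun t => x (min t 0) + (y (max t 0) - x 0) with hz
  have hzneg : ∀ t, t ≤ 0 → z t = x t := fun t ht => by
    simp [hz, min_eq_left ht, max_eq_right ht, hy0]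
  have hzpos : ∀ t, 0 ≤ t → z t = y t := fun t ht => by
    simp [hz, min_eq_right ht, max_eq_left ht]
  have hneg : ∀ t ∈ I ∪ Set.Ici 0, t < 0 → t ∈ I := fun t ht h =>
    ht.resolve_right (not_le.mpr h)
  have hmin : ∀ t ∈ I ∪ Set.Ici 0, min t 0 ∈ I := fun t ht => by
    rcases lt_or_ge t 0 with h | h
    · rw [min_eq_left h.le]; exact hneg t ht h
    · rw [min_eq_right h]; exact h0
  refine ⟨z, ⟨⟨fun a ha b _ c hc => ?_⟩, fun t ht i => ?_, fun a ha b hb => ?_, ?_⟩,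
    fun t ht => ?_⟩
  · rcases lt_or_ge c 0 with h | h
    · exact Or.inl (hI.out (hneg a ha (hc.1.trans_lt h)) h0 ⟨hc.1, h.le⟩)
    · exact Or.inr h
  · rcases lt_or_ge t 0 with h | h
    · rw [hzneg t h.le]; exact hpos t (hneg t ht h) i
    · rw [hzpos t h]; exact hypos t h i
  · refine (ac_comp_min (hac _ (hmin a ha) _ (hmin b hb))).fun_add ?_
    refine LipschitzOnWith.absolutelyContinuousOnInterval (K := C)
      (LipschitzOnWith.of_dist_le_mul fun s _ t _ => ?_)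
    rw [dist_sub_right]
    refine (hylip.dist_le_mul _ (le_max_right s 0) _ (le_max_right t 0)).trans
      (mul_le_mul_of_nonneg_left ?_ C.2)
    exact abs_max_sub_max_le_abs s t 0
  · have h1 : ∀ᵐ t : ℝ, t ≠ 0 := by simp [ae_iff, measure_singleton]
    filter_upwards [hd, hyd, h1] with t ht1 ht2 ht3 ht
    rcases lt_or_gt_of_ne ht3 with h | h
    · rw [hzneg t h.le]
      refine (ht1 (hneg t ht h)).congr_of_eventuallyEq ?_
      filter_upwards [Iio_mem_nhds h] with s hs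
      exact hzneg s (le_of_lt hs)
    · rw [hzpos t h.le]
      refine (ht2 h).congr_of_eventuallyEq ?_
      filter_upwards [Ioi_mem_nhds h] with s hs
      exact hzpos s (le_of_lt hs)
  · rcases le_total t 0 with h | h
    · exact hzneg t h
    · rw [hzpos t h]
      exact (huniq x t h (isol_of_ac hε hk hI hpos hac hd h0 ht h) rfl).symm

/-- **The absorbing compact set.** -/
theorem absorbing (hε : 0 < ε)
    (hwr : ∀ e ∈ E, Relation.ReflTransGen (fun u v => (u, v) ∈ E) e.2 e.1)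
    {x₀ : ι → ℝ} (hx₀ : ∀ i, 0 < x₀ i) :
    ∃ K : Set (ι → ℝ), IsCompact K ∧
      K ⊆ {x | (∀ i, 0 < x i) ∧
        x - x₀ ∈ Submodule.span ℝ ((fun e : (ι → ℝ) × (ι → ℝ) => e.2 - e.1) '' E)} ∧
      ∀ k, Rates E ε k → ∀ (I : Set ℝ) (x : ℝ → ι → ℝ), I.OrdConnected →
        (∀ t ∈ I, ∀ i, 0 < x t i) →
        (∀ a ∈ I, ∀ b ∈ I, AbsolutelyContinuousOnInterval x a b) →
        (∀ᵐ t, t ∈ I → HasDerivAt x (∑ e ∈ E, (k e t * mon (x t) e.1) • (e.2 - e.1)) t) →
        x 0 - x₀ ∈ Submodule.span ℝ ((fun e : (ι → ℝ) × (ι → ℝ) => e.2 - e.1) '' E) →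
        Set.Ici 0 ⊆ I → ∃ t₀, 0 < t₀ ∧ ∀ t, t₀ < t → x t ∈ K := by
  obtain ⟨b, B, hb, h⟩ := eventual hε hwr hx₀
  set S := Submodule.span ℝ ((fun e : (ι → ℝ) × (ι → ℝ) => e.2 - e.1) '' E) with hS
  refine ⟨Set.Icc (fun _ => b) (fun _ => B) ∩ {x | x - x₀ ∈ S}, ?_, ?_, ?_⟩
  · exact isCompact_Icc.inter_right
      (S.closed_of_finiteDimensional.preimage (continuous_id.sub continuous_const))
  · exact fun x hx => ⟨fun i => hb.trans_le (hx.1.1 i), hx.2⟩
  · intro k hk I x hI hpos hac hd h0 hsub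
    have h0I : (0 : ℝ) ∈ I := hsub Set.self_mem_Ici
    have hsol : ∀ T, ISol E k x 0 T := fun T => by
      rcases le_total 0 T with hT | hT
      · exact isol_of_ac hε hk hI hpos hac hd h0I (hsub hT) hT
      · exact (isol_of_ac hε hk hI hpos hac hd h0I h0I le_rfl).mono le_rfl hT
    obtain ⟨T, hT, hT'⟩ := h k hk x hsol h0
    refine ⟨T + 1, by linarith, fun t ht => ⟨⟨fun i => (hT' t (by linarith) i).1,
      fun i => (hT' t (by linarith) i).2⟩, ?_⟩⟩
    have ht0 : 0 ≤ t := by linarith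
    have := Submodule.add_mem _ ((hsol t).mem_span ⟨le_rfl, ht0⟩ ⟨ht0, le_rfl⟩) h0
    simpa using this

end Pool.Agent.Lib.MP_5f8094_an
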