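import Pool.Agent.Lib.MP_5f8094_an.Core
import Pool.Agent.Lib.MP_5f8094_an.Flux

/-!
Monotonicity of the tropical Lyapunov function along solutions.
-/

set_option autoImplicit false

namespace Pool.Agent.Lib.MP_5f8094_an

open Finset MeasureTheory

variable {ι : Type} [Fintype ι] [DecidableEq ι]

/-- The monomial `x ^ s`. -/
noncomputable def mon (x s : ι → ℝ) : ℝ := ∏ i, x i ^ s i

/-- Admissible rate functions. -/
structure Rates (E : Finset ((ι → ℝ) × (ι → ℝ))) (ε : ℝ)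
    (k : (ι → ℝ) × (ι → ℝ) → ℝ → ℝ) : Prop where
  meas : ∀ e ∈ E, AEMeasurable (k e) volume
  bd : ∀ e ∈ E, ∀ t, ε ≤ k e t ∧ k e t ≤ 1 / ε

/-- Solutions of the integrated equation on a compact interval. -/
structure ISol (E : Finset ((ι → ℝ) × (ι → ℝ))) (k : (ι → ℝ) × (ι → ℝ) → ℝ → ℝ)
    (x : ℝ → ι → ℝ) (t₀ t₁ : ℝ) : Prop where
  cont : ContinuousOn x (Set.Icc t₀ t₁)
  pos : ∀ t ∈ Set.Icc t₀ t₁, ∀ i, 0 < x t i
  eq : ∀ a ∈ Set.Icc t₀ t₁, ∀ b ∈ Set.Icc t₀ t₁,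
    x b - x a = ∑ e ∈ E, (∫ s in a..b, k e s * mon (x s) e.1) • (e.2 - e.1)

variable {E : Finset ((ι → ℝ) × (ι → ℝ))} {ε : ℝ} {k : (ι → ℝ) × (ι → ℝ) → ℝ → ℝ}
  {x : ℝ → ι → ℝ} {t₀ t₁ : ℝ}

omit [DecidableEq ι] in
lemma ISol.mono (h : ISol E k x t₀ t₁) {a b : ℝ} (ha : t₀ ≤ a) (hb : b ≤ t₁) : ISol E k x a b :=
  ⟨h.cont.mono (Set.Icc_subset_Icc ha hb), fun t ht => h.pos t (Set.Icc_subset_Icc ha hb ht),
    fun c hc d hd => h.eq c (Set.Icc_subset_Icc ha hb hc) d (Set.Icc_subset_Icc ha hb hd)⟩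

omit [DecidableEq ι] in
lemma mon_eq_exp {z : ι → ℝ} (hz : ∀ i, 0 < z i) (s : ι → ℝ) :
    mon z s = Real.exp (∑ i, s i * Real.log (z i)) := by
  unfold mon
  rw [Real.exp_sum]
  exact Finset.prod_congr rfl fun i _ => by rw [Real.rpow_def_of_pos (hz i), mul_comm]

omit [DecidableEq ι] in
lemma mon_pos {z : ι → ℝ} (hz : ∀ i, 0 < z i) (s : ι → ℝ) : 0 < mon z s := by
  rw [mon_eq_exp hz]; exact Real.exp_pos _

omit [DecidableEq ι] in
lemma continuousOn_mon {A : Set ℝ} (hc : ContinuousOn x A) (hp : ∀ t ∈ A, ∀ i, 0 < x t i)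
    (s : ι → ℝ) : ContinuousOn (fun t => mon (x t) s) A := by
  unfold mon
  refine continuousOn_finsetProd _ fun i _ => ?_
  exact ((continuous_apply i).comp_continuousOn hc).rpow_const fun t ht => Or.inl (hp t ht i).ne'

omit [Fintype ι] [DecidableEq ι] in
lemma Rates.intervalIntegrable (hε : 0 < ε) (hk : Rates E ε k) {e : (ι → ℝ) × (ι → ℝ)}
    (he : e ∈ E) (a b : ℝ) : IntervalIntegrable (k e) volume a b := by
  refine (intervalIntegrable_const (c := 1 / ε)).mono_fun'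
    (hk.meas e he).aestronglyMeasurable.restrict (Filter.Eventually.of_forall fun t => ?_)
  have := hk.bd e he t
  simp only [Real.norm_eq_abs]
  rw [abs_of_pos (by linarith)]
  exact this.2

omit [DecidableEq ι] in
lemma ISol.integrable (hε : 0 < ε) (hk : Rates E ε k) (h : ISol E k x t₀ t₁)
    {e : (ι → ℝ) × (ι → ℝ)} (he : e ∈ E) {a b : ℝ} (ha : a ∈ Set.Icc t₀ t₁)
    (hb : b ∈ Set.Icc t₀ t₁) :
    IntervalIntegrable (fun s => k e s * mon (x s) e.1) volume a b :=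
  (hk.intervalIntegrable hε he a b).mul_continuousOn
    ((continuousOn_mon h.cont h.pos _).mono (Set.uIcc_subset_Icc ha hb))

lemma chain_le {G : ℝ → ℝ} {h : ℝ} (hh : 0 < h) (ht : t₀ ≤ t₁)
    (hG : ∀ a ∈ Set.Icc t₀ t₁, ∀ b ∈ Set.Icc t₀ t₁, a ≤ b → b - a < h → G a ≤ G b) :
    G t₀ ≤ G t₁ := by
  have key : ∀ N : ℕ, ∀ b ∈ Set.Icc t₀ t₁, b - t₀ ≤ N * (h / 2) → G t₀ ≤ G b := by
    intro N
    induction N with
    | zero =>
      intro b hb hle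
      have : b = t₀ := by
        have := hb.1
        simp at hle
        linarith
      rw [this]
    | succ N ih =>
      intro b hb hle
      rcases le_or_gt (b - t₀) (h / 2) with h1 | h1
      · exact hG t₀ ⟨le_rfl, ht⟩ b hb hb.1 (by linarith)
      · have hm : b - h / 2 ∈ Set.Icc t₀ t₁ := ⟨by linarith, by linarith [hb.2]⟩
        push_cast at hle
        exact (ih _ hm (by linarith)).trans (hG _ hm b hb (by linarith) (by linarith))
  obtain ⟨N, hN⟩ := exists_nat_ge ((t₁ - t₀) / (h / 2))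
  rw [div_le_iff₀ (by linarith)] at hN
  exact key N t₁ ⟨ht, le_rfl⟩ hN

omit [DecidableEq ι] in
lemma ISol.pairing (hε : 0 < ε) (hk : Rates E ε k) (h : ISol E k x t₀ t₁) (c : ι → ℝ) {a b : ℝ}
    (ha : a ∈ Set.Icc t₀ t₁) (hb : b ∈ Set.Icc t₀ t₁) :
    ∑ i, c i * (x b i - x a i) = ∫ s in a..b, ∑ e ∈ E,
      k e s * mon (x s) e.1 * (∑ i, e.2 i * c i - ∑ i, e.1 i * c i) := by
  rw [intervalIntegral.integral_finsetSum fun e he => (h.integrable hε hk he ha hb).mul_const _]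
  have h1 : ∀ i, x b i - x a i =
      ∑ e ∈ E, (∫ s in a..b, k e s * mon (x s) e.1) * (e.2 i - e.1 i) := by
    intro i
    have := congrFun (h.eq a ha b hb) i
    simpa [Finset.sum_apply] using this
  simp_rw [h1, Finset.mul_sum]
  rw [Finset.sum_comm]
  refine Finset.sum_congr rfl fun e _ => ?_
  rw [intervalIntegral.integral_mul_const, ← Finset.sum_sub_distrib, Finset.mul_sum]
  exact Finset.sum_congr rfl fun i _ => by ring

omit [DecidableEq ι] in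
lemma ISol.mono_aux (hε : 0 < ε) (hk : Rates E ε k) (h : ISol E k x t₀ t₁) (ht : t₀ ≤ t₁)
    (Θ : (ι → ℝ) → ℝ) (κ : ℝ) {η : ℝ} (hη : 0 < η)
    (H : ∀ t ∈ Set.Icc t₀ t₁, ∃ c : ι → ℝ,
      (∀ y : ι → ℝ, Θ y ≤ Θ (x t) + ∑ i, c i * (y i - x t i)) ∧
      ∀ s ∈ Set.Icc t₀ t₁, (∀ i, |Real.log (x s i) - Real.log (x t i)| ≤ η) →
        κ ≤ ∑ e ∈ E, k e s * mon (x s) e.1 * (∑ i, e.2 i * c i - ∑ i, e.1 i * c i)) :
    Θ (x t₀) + κ * (t₁ - t₀) ≤ Θ (x t₁) := by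
  have hcont : ContinuousOn (fun t => fun i => Real.log (x t i)) (Set.Icc t₀ t₁) :=
    continuousOn_pi.mpr fun i =>
      ((continuous_apply i).comp_continuousOn h.cont).log fun t ht => (h.pos t ht i).ne'
  obtain ⟨d, hd, hd'⟩ := Metric.uniformContinuousOn_iff.mp
    (isCompact_Icc.uniformContinuousOn_of_continuous hcont) η hη
  have := chain_le (G := fun t => Θ (x t) - κ * t) hd ht ?_
  · linarith
  intro a ha b hb hab hlt
  obtain ⟨c, hc1, hc2⟩ := H b hb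
  have h1 := hc1 (x a)
  have h2 := h.pairing hε hk c ha hb
  have h3 : ∑ i, c i * (x a i - x b i) = -∑ i, c i * (x b i - x a i) := by
    rw [← Finset.sum_neg_distrib]
    exact Finset.sum_congr rfl fun i _ => by ring
  have h4 : ∫ _ in a..b, κ ≤ ∫ s in a..b, ∑ e ∈ E,
      k e s * mon (x s) e.1 * (∑ i, e.2 i * c i - ∑ i, e.1 i * c i) := by
    refine intervalIntegral.integral_mono_on hab intervalIntegrable_const ?_ fun s hs => ?_
    · have := IntervalIntegrable.sum E fun e he =>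
        (h.integrable hε hk he ha hb).mul_const (∑ i, e.2 i * c i - ∑ i, e.1 i * c i)
      refine this.congr fun s _ => ?_
      simp
    · have hs' : s ∈ Set.Icc t₀ t₁ := ⟨ha.1.trans hs.1, hs.2.trans hb.2⟩
      refine hc2 s hs' fun i => ?_
      have h5 := hd' s hs' b hb (by
        rw [Real.dist_eq, abs_sub_comm, abs_of_nonneg (by linarith [hs.2])]
        linarith [hs.1])
      have h6 := (dist_le_pi_dist _ _ i).trans h5.le
      rwa [Real.dist_eq] at h6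
  rw [intervalIntegral.integral_const, smul_eq_mul] at h4
  linarith

/-- All differences of vertices. -/
def diffs (E : Finset ((ι → ℝ) × (ι → ℝ))) : Set (ι → ℝ) :=
  (fun p : (ι → ℝ) × (ι → ℝ) => p.1 - p.2) ''
    ((Prod.fst '' (E : Set ((ι → ℝ) × (ι → ℝ))) ∪ Prod.snd '' (E : Set ((ι → ℝ) × (ι → ℝ)))) ×ˢ
      (Prod.fst '' (E : Set ((ι → ℝ) × (ι → ℝ))) ∪ Prod.snd '' (E : Set ((ι → ℝ) × (ι → ℝ)))))

omit [Fintype ι] [DecidableEq ι] in
lemma diffs_finite (E : Finset ((ι → ℝ) × (ι → ℝ))) : (diffs E).Finite := by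
  have h : (Prod.fst '' (E : Set ((ι → ℝ) × (ι → ℝ))) ∪
      Prod.snd '' (E : Set ((ι → ℝ) × (ι → ℝ)))).Finite :=
    (E.finite_toSet.image _).union (E.finite_toSet.image _)
  exact (h.prod h).image _

omit [DecidableEq ι] in
lemma sum_sub_mul (u v c : ι → ℝ) :
    ∑ i, (u - v) i * c i = ∑ i, u i * c i - ∑ i, v i * c i := by
  rw [← Finset.sum_sub_distrib]
  exact Finset.sum_congr rfl fun i _ => by simp [sub_mul]

omit [DecidableEq ι] in
/-- The flux bound at one point. -/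
lemma flux_point (hε : 0 < ε)
    (hwr : ∀ e ∈ E, Relation.ReflTransGen (fun u v => (u, v) ∈ E) e.2 e.1)
    (κ : (ι → ℝ) × (ι → ℝ) → ℝ) (hκ : ∀ e ∈ E, ε ≤ κ e ∧ κ e ≤ 1 / ε) {z c : ι → ℝ}
    (hz : ∀ i, 0 < z i)
    (hsign : ∀ v ∈ diffs E, 0 < ∑ i, v i * c i →
      ∑ i, v i * Real.log (z i) ≤ -(2 * E.card / ε ^ 2))
    {μ : ℝ} (hμ : 0 < μ) (hμ' : ∀ e ∈ E, μ ≤ mon z e.1) {e₁ : (ι → ℝ) × (ι → ℝ)} (he₁ : e₁ ∈ E) :
    ε * μ / 2 * |∑ i, e₁.2 i * c i - ∑ i, e₁.1 i * c i| ≤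
      ∑ e ∈ E, κ e * mon z e.1 * (∑ i, e.2 i * c i - ∑ i, e.1 i * c i) := by
  refine flux hwr (fun y => ∑ i, y i * c i) (fun e => κ e * mon z e.1) (by positivity)
    (fun e he => mul_le_mul (hκ e he).1 (hμ' e he) hμ.le (hε.le.trans (hκ e he).1)) ?_ he₁
  intro e he e' he' hlt
  have h1 := hsign (e.1 - e'.1) ⟨(e.1, e'.1), ⟨Or.inl ⟨e, he, rfl⟩, Or.inl ⟨e', he', rfl⟩⟩, rfl⟩
    (by rw [sum_sub_mul]; linarith)
  rw [sum_sub_mul] at h1
  set D : ℝ := 2 * E.card / ε ^ 2 with hD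
  have h2 : mon z e.1 * Real.exp D ≤ mon z e'.1 := by
    rw [mon_eq_exp hz, mon_eq_exp hz, ← Real.exp_add, Real.exp_le_exp]
    linarith
  have h3 : D + 1 ≤ Real.exp D := Real.add_one_le_exp _
  have h4 := mon_pos hz e.1
  have h5 : mon z e.1 * D ≤ mon z e'.1 := by nlinarith
  have h6 : 2 * E.card * (κ e * mon z e.1) ≤ 2 * E.card * (1 / ε * mon z e.1) :=
    mul_le_mul_of_nonneg_left (mul_le_mul_of_nonneg_right (hκ e he).2 h4.le) (by positivity)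
  have h7 : 2 * E.card * (1 / ε * mon z e.1) = ε * (mon z e.1 * D) := by
    rw [hD]; field_simp
  have h8 : ε * (mon z e.1 * D) ≤ ε * mon z e'.1 := mul_le_mul_of_nonneg_left h5 hε.le
  have h9 : ε * mon z e'.1 ≤ κ e' * mon z e'.1 :=
    mul_le_mul_of_nonneg_right (hκ e' he').1 (mon_pos hz _).le
  linarith

/-- **One level of the argument.** -/
theorem step (hε : 0 < ε)
    (hwr : ∀ e ∈ E, Relation.ReflTransGen (fun u v => (u, v) ∈ E) e.2 e.1) :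
    ∃ g : ℝ, 0 < g ∧ ∀ R : ℝ, ∃ W₀ : ℝ, ∀ W, W₀ ≤ W → ∀ L : Finset ι, L.Nonempty →
      ∀ s₀ : ℝ, |s₀| = 1 → ∀ k, Rates E ε k → ∀ (x : ℝ → ι → ℝ) (t₀ t₁ : ℝ), t₀ ≤ t₁ →
        ISol E k x t₀ t₁ → (∀ t ∈ Set.Icc t₀ t₁, ∑ i ∈ L, x t i ≤ 2 * X W s₀) →
        (∀ t ∈ Set.Icc t₀ t₁, ∀ i, i ∉ L → |Real.log (x t i)| ≤ R) →
        s₀ * (∑ i ∈ L, x t₀ i) - X W s₀ / 8 ≤ s₀ * (∑ i ∈ L, x t₁ i) ∧
        ∀ x₀ : ι → ℝ, (∀ i, 0 ≤ x₀ i) → ∀ μ : ℝ, 0 < μ →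
          (∀ t ∈ Set.Icc t₀ t₁, ∀ e ∈ E, μ ≤ mon (x t) e.1) →
          (∀ t ∈ Set.Icc t₀ t₁, x t - x₀ ∈
            Submodule.span ℝ ((fun e : (ι → ℝ) × (ι → ℝ) => e.2 - e.1) '' E)) →
          (∀ t ∈ Set.Icc t₀ t₁, s₀ * (∑ i ∈ L, x t i) < s₀ * (∑ i ∈ L, x₀ i) - X W s₀ / 8) →
          s₀ * (∑ i ∈ L, x t₀ i) - X W s₀ / 8 + ε * μ / 2 * g * (t₁ - t₀) ≤
            s₀ * (∑ i ∈ L, x t₁ i) := by
  obtain ⟨g, hg, hcore⟩ := core (diffs_finite E)
  refine ⟨g, hg, fun R => ?_⟩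
  obtain ⟨W₀, hW₀⟩ := hcore (2 * E.card / ε ^ 2 + 1) R
  refine ⟨W₀, fun W hW L hL s₀ hs₀ k hk x t₀ t₁ ht hx hM hR => ?_⟩
  -- a lower bound for the solution
  obtain ⟨a, ha, ha'⟩ : ∃ a : ℝ, 0 < a ∧ ∀ t ∈ Set.Icc t₀ t₁, ∀ i, a ≤ x t i := by
    have h1 : ∀ i, ∃ a : ℝ, 0 < a ∧ ∀ t ∈ Set.Icc t₀ t₁, a ≤ x t i := by
      intro i
      obtain ⟨t, ht1, ht2⟩ := isCompact_Icc.exists_isMinOn (Set.nonempty_Icc.mpr ht)
        ((continuous_apply i).comp_continuousOn hx.cont)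
      exact ⟨x t i, hx.pos t ht1 i, fun s hs => ht2 hs⟩
    choose a ha1 ha2 using h1
    obtain ⟨b, hb, hb'⟩ := exists_pos_le_of_finite (Set.finite_range a)
      (by rintro _ ⟨i, rfl⟩; exact ha1 i)
    exact ⟨b, hb, fun t ht i => (hb' _ ⟨i, rfl⟩).trans (ha2 i t ht)⟩
  obtain ⟨Θ, hΘ1, hΘ2⟩ := hW₀ W hW L hL s₀ hs₀ a ha
  obtain ⟨η, hη, hη'⟩ : ∃ η : ℝ, 0 < η ∧ ∀ v ∈ diffs E, (∑ i, |v i|) * η ≤ 1 := by
    obtain ⟨S, -, hS⟩ := exists_setup (diffs_finite E)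
    exact ⟨S.q, S.q_pos, hS⟩
  -- the sign condition persists nearby
  have hnear : ∀ (c z z' : ι → ℝ), (∀ v ∈ diffs E, 0 < ∑ i, v i * c i →
      g ≤ ∑ i, v i * c i ∧ ∑ i, v i * Real.log (z i) ≤ -(2 * E.card / ε ^ 2 + 1)) →
      (∀ i, |Real.log (z' i) - Real.log (z i)| ≤ η) →
      ∀ v ∈ diffs E, 0 < ∑ i, v i * c i →
        ∑ i, v i * Real.log (z' i) ≤ -(2 * E.card / ε ^ 2) := by
    intro c z z' h1 h2 v hv hpos
    have h3 := (h1 v hv hpos).2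
    have h4 : ∑ i, v i * Real.log (z' i) - ∑ i, v i * Real.log (z i) ≤ (∑ i, |v i|) * η := by
      rw [← Finset.sum_sub_distrib, Finset.sum_mul]
      refine Finset.sum_le_sum fun i _ => ?_
      rw [← mul_sub]
      refine (le_abs_self _).trans ?_
      rw [abs_mul]
      exact mul_le_mul_of_nonneg_left (h2 i) (abs_nonneg _)
    have h5 := hη' v hv
    linarith
  have hb0 := hΘ1 (x t₀) fun i => (hx.pos t₀ ⟨le_rfl, ht⟩ i).le
  have hb1 := hΘ1 (x t₁) fun i => (hx.pos t₁ ⟨ht, le_rfl⟩ i).le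
  constructor
  · have := hx.mono_aux hε hk ht Θ 0 hη fun t htm => ?_
    · linarith [hb0.1, hb1.2]
    obtain ⟨c, hc1, hc2⟩ := hΘ2 (x t) (ha' t htm) (hM t htm) (hR t htm)
    refine ⟨c, hc1, fun s hs hclose => ?_⟩
    rcases E.eq_empty_or_nonempty with rfl | ⟨e₁, he₁⟩
    · simp
    obtain ⟨μ, hμ, hμ'⟩ := exists_pos_le_of_finite
      (E.finite_toSet.image fun e => mon (x s) e.1)
      (by rintro _ ⟨e, -, rfl⟩; exact mon_pos (hx.pos s hs) _)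
    refine le_trans ?_ (flux_point hε hwr (fun e => k e s) (fun e he => hk.bd e he s)
      (hx.pos s hs) (hnear c _ _ hc2 hclose) hμ (fun e he => hμ' _ ⟨e, he, rfl⟩) he₁)
    positivity
  · intro x₀ hx₀ μ hμ hμ' hspan hlt
    have := hx.mono_aux hε hk ht Θ (ε * μ / 2 * g) hη fun t htm => ?_
    · linarith [hb0.1, hb1.2]
    obtain ⟨c, hc1, hc2⟩ := hΘ2 (x t) (ha' t htm) (hM t htm) (hR t htm)
    refine ⟨c, hc1, fun s hs hclose => ?_⟩
    -- `c` is not orthogonal to all edge vectors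
    obtain ⟨e₁, he₁, hne⟩ : ∃ e ∈ E, ∑ i, e.2 i * c i - ∑ i, e.1 i * c i ≠ 0 := by
      by_contra hcon
      push Not at hcon
      have h1 : ∀ u ∈ Submodule.span ℝ ((fun e : (ι → ℝ) × (ι → ℝ) => e.2 - e.1) '' E),
          ∑ i, u i * c i = 0 := by
        intro u hu
        induction hu using Submodule.span_induction with
        | mem u hu =>
          obtain ⟨e, he, rfl⟩ := hu
          rw [sum_sub_mul]; exact hcon e he
        | zero => simp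
        | add u v _ _ hu hv => simp [add_mul, Finset.sum_add_distrib, hu, hv]
        | smul r u _ hu => simp [mul_assoc, ← Finset.mul_sum, hu]
      have h2 := h1 _ (hspan t htm)
      have h3 : ∑ i, c i * (x₀ i - x t i) = -∑ i, (x t - x₀) i * c i := by
        rw [← Finset.sum_neg_distrib]
        exact Finset.sum_congr rfl fun i _ => by simp; ring
      have h4 := hc1 x₀
      have h5 := (hΘ1 x₀ hx₀).1
      have h6 := (hΘ1 (x t) fun i => (hx.pos t htm i).le).2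
      have h7 := hlt t htm
      rw [h3, h2] at h4
      linarith
    refine le_trans ?_ (flux_point hε hwr (fun e => k e s) (fun e he => hk.bd e he s)
      (hx.pos s hs) (hnear c _ _ hc2 hclose) hμ (hμ' s hs) he₁)
    refine mul_le_mul_of_nonneg_left ?_ (by positivity)
    rcases lt_or_gt_of_ne hne with h | h
    · have h1 := hc2 (e₁.1 - e₁.2)
        ⟨(e₁.1, e₁.2), ⟨Or.inl ⟨e₁, he₁, rfl⟩, Or.inr ⟨e₁, he₁, rfl⟩⟩, rfl⟩
        (by rw [sum_sub_mul]; linarith)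
      rw [sum_sub_mul] at h1
      rw [abs_of_neg h]
      linarith [h1.1]
    · have h1 := hc2 (e₁.2 - e₁.1)
        ⟨(e₁.2, e₁.1), ⟨Or.inr ⟨e₁, he₁, rfl⟩, Or.inl ⟨e₁, he₁, rfl⟩⟩, rfl⟩
        (by rw [sum_sub_mul]; linarith)
      rw [sum_sub_mul] at h1
      rw [abs_of_pos h]
      exact h1.1

end Pool.Agent.Lib.MP_5f8094_an
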