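import Mathlib

/-!
Combinatorial part of the tropical Lyapunov function: states, special values, the gap invariant.
-/

set_option autoImplicit false

namespace Pool.Agent.Lib.MP_5f8094_an

open Finset

variable {ι : Type} [Fintype ι] [DecidableEq ι]

/-- Inner product over the coordinates outside `L`. -/
def ip (L : Finset ι) (v c : ι → ℝ) : ℝ := ∑ i ∈ Lᶜ, v i * c i

/-- The data fixed once and for all. -/
structure Setup (ι : Type) [Fintype ι] [DecidableEq ι] where
  T : ℕ → Set (ι → ℝ)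
  Sp : ℕ → Set (ι → ℝ)
  q : ℝ
  q_pos : 0 < q
  q_le : q ≤ 1 / 8
  mono : ∀ r, T r ⊆ T (r + 1)
  diff : ∀ r, ∀ w ∈ Sp r, ∀ w' ∈ Sp r, w - w' ∈ T (r + 1)
  quot : ∀ r, ∀ v ∈ T r, ∀ B : Finset ι, (-(∑ i ∈ B, v i)⁻¹) • v ∈ Sp r
  single : ∀ r i, (Pi.single i (1 : ℝ) : ι → ℝ) ∈ Sp r
  coef : ∀ r ≤ Fintype.card ι, ∀ v ∈ T r, ∀ B : Finset ι, (∑ i ∈ B, v i) ≠ 0 →
    q ≤ |∑ i ∈ B, v i|

namespace Setup

variable (S : Setup ι)

/-- The total exponent budget. -/
def N (_S : Setup ι) : ℕ := 4 ^ (Fintype.card ι + 1)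

noncomputable def lam : ℝ := S.q ^ (S.N + 1)
noncomputable def eta (α r : ℕ) : ℝ := S.q ^ (α + 2 * 4 ^ r)
noncomputable def err (α r : ℕ) : ℝ := S.q ^ (α + 4 ^ (r + 1))

/-- `s` is a special value for the state `(L, c)`. -/
def Spec (L : Finset ι) (c : ι → ℝ) (s : ℝ) : Prop :=
  ∃ w ∈ S.Sp (L.card - 1), ip L w c = s

/-- `s` is far from all special values. -/
def Far (L : Finset ι) (c : ι → ℝ) (α : ℕ) (s : ℝ) : Prop :=
  ∀ ρ, S.Spec L c ρ → S.eta α L.card ≤ |s - ρ|

/-- The gap invariant. -/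
def Inv (L : Finset ι) (c : ι → ℝ) (α : ℕ) : Prop :=
  (∀ v ∈ S.T L.card, ip L v c = 0 ∨ S.q ^ α ≤ |ip L v c|) ∧ α + 4 ^ (L.card + 1) ≤ S.N

/-- Arrival at level `s` after the threshold `l`. -/
def Arr (L : Finset ι) (c : ι → ℝ) (α : ℕ) (s l : ℝ) : Prop :=
  (S.Spec L c s ∧ s - l ≤ S.eta α L.card + S.lam) ∨ (S.Far L c α s ∧ s - l ≤ S.lam)

open Classical in
noncomputable def thr (L : Finset ι) (c : ι → ℝ) (α : ℕ) (s : ℝ) : ℝ :=
  if S.Spec L c s then s + S.eta α L.card else s + S.lam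

lemma q_le_one : S.q ≤ 1 := S.q_le.trans (by norm_num)

lemma pow_anti {a b : ℕ} (h : a ≤ b) : S.q ^ b ≤ S.q ^ a :=
  pow_le_pow_of_le_one S.q_pos.le S.q_le_one h

lemma pow_anti8 {a b : ℕ} (h : a + 1 ≤ b) : 8 * S.q ^ b ≤ S.q ^ a := by
  have h1 := S.pow_anti h
  have h2 : S.q ^ (a + 1) = S.q ^ a * S.q := pow_succ _ _
  have h3 : 0 < S.q ^ a := pow_pos S.q_pos _
  have h4 := S.q_le
  nlinarith

lemma lam_pos : 0 < S.lam := pow_pos S.q_pos _
lemma eta_pos (α r : ℕ) : 0 < S.eta α r := pow_pos S.q_pos _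

lemma T_mono {a b : ℕ} (h : a ≤ b) : S.T a ⊆ S.T b := by
  induction h with
  | refl => exact subset_rfl
  | step _ ih => exact ih.trans (S.mono _)

lemma lam_le_err {α r : ℕ} (h : α + 4 ^ (r + 1) ≤ S.N) : 8 * S.lam ≤ S.err α r :=
  S.pow_anti8 (by omega)

lemma err_le_eta (α r : ℕ) : S.err α r ≤ S.eta α r :=
  S.pow_anti (by rw [pow_succ]; omega)

lemma eta_le (α r : ℕ) : 8 * S.eta α r ≤ S.q ^ α :=
  S.pow_anti8 (by have : 0 < 4 ^ r := by positivity
                  omega)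

lemma ip_sub (L : Finset ι) (v w c : ι → ℝ) : ip L (v - w) c = ip L v c - ip L w c := by
  simp [ip, sub_mul, Finset.sum_sub_distrib]

lemma ip_smul (L : Finset ι) (a : ℝ) (v c : ι → ℝ) : ip L (a • v) c = a * ip L v c := by
  simp [ip, Finset.mul_sum, mul_assoc]

/-- Distinct special values are `q ^ α` apart. -/
lemma spec_gap {L : Finset ι} {c : ι → ℝ} {α : ℕ} (hL : L.Nonempty) (h : S.Inv L c α)
    {ρ ρ' : ℝ} (h1 : S.Spec L c ρ) (h2 : S.Spec L c ρ') : ρ = ρ' ∨ S.q ^ α ≤ |ρ - ρ'| := by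
  obtain ⟨w, hw, rfl⟩ := h1
  obtain ⟨w', hw', rfl⟩ := h2
  have hd := S.diff _ w hw w' hw'
  have hc : L.card - 1 + 1 = L.card := by
    have := hL.card_pos
    omega
  rw [hc] at hd
  rcases h.1 _ hd with h0 | h0
  · left; rw [ip_sub] at h0; linarith
  · right; rwa [ip_sub] at h0

lemma not_spec_of_far {L : Finset ι} {c : ι → ℝ} {α : ℕ} {s : ℝ} (h : S.Far L c α s) :
    ¬ S.Spec L c s := by
  intro hs
  have := h s hs
  have h2 := S.eta_pos α L.card
  simp at this
  linarith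

lemma thr_ge {L : Finset ι} {c : ι → ℝ} {α : ℕ} (h : S.Inv L c α) (s : ℝ) :
    s + S.lam ≤ S.thr L c α s := by
  have h1 := S.lam_le_err h.2
  have h2 := S.err_le_eta α L.card
  have h3 := S.lam_pos
  unfold thr
  split_ifs <;> linarith

/-- The move to the next level. -/
lemma exists_next {L : Finset ι} {c : ι → ℝ} {α : ℕ} {s : ℝ} (hL : L.Nonempty)
    (h : S.Inv L c α) (hs : S.Spec L c s ∨ S.Far L c α s) :
    ∃ t, S.thr L c α s + S.lam ≤ t ∧ t ≤ s + 1 ∧ S.Arr L c α t (S.thr L c α s) := by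
  have h1 := S.lam_le_err h.2
  have h2 := S.err_le_eta α L.card
  have h3 := S.lam_pos
  have h4 := S.eta_le α L.card
  have h5 : S.q ^ α ≤ 1 := pow_le_one₀ S.q_pos.le S.q_le_one
  rcases hs with hs | hs
  · have ht : S.thr L c α s = s + S.eta α L.card := by simp [thr, hs]
    rw [ht]
    refine ⟨s + S.eta α L.card + S.lam, le_rfl, by linarith, Or.inr ⟨?_, by linarith⟩⟩
    intro ρ hρ
    rcases S.spec_gap hL h hs hρ with rfl | hg
    · rw [le_abs]; left; linarith
    · rw [le_abs] at hg ⊢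
      rcases hg with hg | hg
      · left; linarith
      · right; linarith
  · have ht : S.thr L c α s = s + S.lam := by simp [thr, S.not_spec_of_far hs]
    rw [ht]
    by_cases hex : ∃ ρ, S.Spec L c ρ ∧ s < ρ ∧ ρ < s + S.eta α L.card + 2 * S.lam
    · obtain ⟨ρ, hρ, hρ1, hρ2⟩ := hex
      have := hs ρ hρ
      rw [abs_sub_comm, abs_of_pos (by linarith)] at this
      exact ⟨ρ, by linarith, by linarith, Or.inl ⟨hρ, by linarith⟩⟩
    · refine ⟨s + 2 * S.lam, by linarith, by linarith, Or.inr ⟨?_, by linarith⟩⟩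
      intro ρ hρ
      have h6 := hs ρ hρ
      rw [le_abs] at h6 ⊢
      rcases h6 with h6 | h6
      · left; linarith
      · right
        by_contra hcon
        exact hex ⟨ρ, hρ, by have := S.eta_pos α L.card; linarith, by linarith⟩

/-- The values after stopping the block `B` at level `s`. -/
def cB (c : ι → ℝ) (s : ℝ) (B : Finset ι) : ι → ℝ := fun i => if i ∈ B then s else c i

open Classical in
/-- The gap exponent after stopping the block `B` at level `s`. -/
noncomputable def aB (L : Finset ι) (c : ι → ℝ) (α : ℕ) (s : ℝ) (B : Finset ι) : ℕ :=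
  if B = ∅ then α else if S.Spec L c s then α + 1 else α + 2 * 4 ^ L.card + 1

lemma cB_empty (c : ι → ℝ) (s : ℝ) : cB c s ∅ = c := by
  funext i; simp [cB]

lemma ip_cB {L B : Finset ι} (hB : B ⊆ L) (v c : ι → ℝ) (s : ℝ) :
    ip (L \ B) v (cB c s B) = ip L v c + (∑ i ∈ B, v i) * s := by
  have h1 : (L \ B)ᶜ = Lᶜ ∪ B := by
    ext i; simp only [mem_compl, mem_sdiff, mem_union]; tauto
  have h2 : Disjoint Lᶜ B := by
    rw [Finset.disjoint_left]; intro i hi hiB; exact (mem_compl.mp hi) (hB hiB)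
  unfold ip
  rw [h1, Finset.sum_union h2, Finset.sum_mul]
  congr 1
  · refine Finset.sum_congr rfl fun i hi => ?_
    have : i ∉ B := fun h => (mem_compl.mp hi) (hB h)
    simp [cB, this]
  · refine Finset.sum_congr rfl fun i hi => ?_
    simp [cB, hi]

lemma card_sdiff_lt {L B : Finset ι} (hB : B ⊆ L) (hne : B ≠ ∅) :
    (L \ B).card + 1 ≤ L.card := by
  have h1 := Finset.card_sdiff_add_card_eq_card hB
  have h2 : 0 < B.card := (Finset.nonempty_iff_ne_empty.mpr hne).card_pos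
  omega

lemma aB_budget {L B : Finset ι} (c : ι → ℝ) (α : ℕ) (s : ℝ) (hB : B ⊆ L) :
    S.aB L c α s B + 4 ^ ((L \ B).card + 1) ≤ α + 4 ^ (L.card + 1) := by
  unfold aB
  by_cases hne : B = ∅
  · subst hne; simp
  · have h1 := card_sdiff_lt hB hne
    have h2 : 4 ^ ((L \ B).card + 1) ≤ 4 ^ L.card := Nat.pow_le_pow_right (by norm_num) h1
    have h3 : 0 < 4 ^ L.card := by positivity
    rw [if_neg hne, pow_succ 4 L.card]
    split_ifs <;> omega

lemma inv_stop {L B : Finset ι} {c : ι → ℝ} {α : ℕ} {s : ℝ} (hL : L.Nonempty)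
    (h : S.Inv L c α) (hs : S.Spec L c s ∨ S.Far L c α s) (hB : B ⊆ L) :
    S.Inv (L \ B) (cB c s B) (S.aB L c α s B) := by
  refine ⟨?_, (S.aB_budget c α s hB).trans h.2⟩
  by_cases hne : B = ∅
  · subst hne
    simpa [cB_empty, aB] using h.1
  intro v hv
  have h1 := card_sdiff_lt hB hne
  have hv1 : v ∈ S.T (L.card - 1) := S.T_mono (by omega) hv
  have hv2 : v ∈ S.T L.card := S.T_mono (by omega) hv
  have hα : α ≤ S.aB L c α s B := by
    unfold aB; split_ifs <;> omega
  rw [ip_cB hB]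
  by_cases hb : (∑ i ∈ B, v i) = 0
  · rw [hb, zero_mul, add_zero]
    rcases h.1 v hv2 with h0 | h0
    · exact Or.inl h0
    · exact Or.inr ((S.pow_anti hα).trans h0)
  · have hw := S.quot _ v hv1 B
    have hcoef := S.coef L.card (Finset.card_le_univ L) v hv2 B hb
    set b := ∑ i ∈ B, v i with hbdef
    have hρ : S.Spec L c (-b⁻¹ * ip L v c) := ⟨_, hw, ip_smul _ _ _ _⟩
    have heq : ip L v c + b * s = b * (s - (-b⁻¹ * ip L v c)) := by
      field_simp
      ring
    rw [heq, abs_mul]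
    by_cases hsp : S.Spec L c s
    · rcases S.spec_gap hL h hsp hρ with h0 | h0
      · left; rw [← h0]; simp
      · right
        have : S.aB L c α s B = α + 1 := by simp [aB, hne, hsp]
        rw [this, pow_succ, mul_comm]
        exact mul_le_mul hcoef h0 (pow_pos S.q_pos _).le (abs_nonneg _)
    · right
      have hf : S.Far L c α s := hs.resolve_left hsp
      have : S.aB L c α s B = α + 2 * 4 ^ L.card + 1 := by simp [aB, hne, hsp]
      rw [this, pow_succ, mul_comm]
      exact mul_le_mul hcoef (hf _ hρ) (pow_pos S.q_pos _).le (abs_nonneg _)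

lemma spec_stop {L B : Finset ι} (c : ι → ℝ) (s : ℝ) (hne : B ≠ ∅) :
    S.Spec (L \ B) (cB c s B) s := by
  obtain ⟨i, hi⟩ := Finset.nonempty_iff_ne_empty.mpr hne
  refine ⟨_, S.single _ i, ?_⟩
  unfold ip
  rw [Finset.sum_eq_single i]
  · simp [cB, hi]
  · intro j _ hj; simp [Pi.single_apply, hj]
  · intro h; exact absurd (by simp [hi]) h

lemma sep_stop {L B : Finset ι} {c : ι → ℝ} {α : ℕ} {s : ℝ}
    (hs : S.Spec L c s ∨ S.Far L c α s) :
    S.Spec (L \ B) (cB c s B) s ∨ S.Far (L \ B) (cB c s B) (S.aB L c α s B) s := by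
  by_cases hne : B = ∅
  · subst hne
    simpa [cB_empty, aB] using hs
  · exact Or.inl (S.spec_stop c s hne)

/-- The width of the cell of a special value is small against the error allowed afterwards. -/
lemma eta_le_err_stop {L B : Finset ι} {c : ι → ℝ} {α : ℕ} {s : ℝ} (hB : B ⊆ L) (hne : B ≠ ∅)
    (hs : S.Spec L c s) : 8 * S.eta α L.card ≤ S.err (S.aB L c α s B) (L \ B).card := by
  have h1 := card_sdiff_lt hB hne
  have h2 : 4 ^ ((L \ B).card + 1) ≤ 4 ^ L.card := Nat.pow_le_pow_right (by norm_num) h1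
  have h3 : 4 ^ 1 ≤ 4 ^ L.card := Nat.pow_le_pow_right (by norm_num) (by omega)
  have : S.aB L c α s B = α + 1 := by simp [aB, hne, hs]
  rw [this]
  exact S.pow_anti8 (by omega)

/-- The threshold with one species less in the block is much closer to `s`. -/
lemma thr_erase {L B : Finset ι} {c : ι → ℝ} {α : ℕ} {s : ℝ}
    (h : S.Inv L c α) (hB : B ⊆ L) {i : ι} (hi : i ∈ B) :
    8 * (S.thr (L \ B.erase i) (cB c s (B.erase i)) (S.aB L c α s (B.erase i)) s - s) ≤
      S.err (S.aB L c α s B) (L \ B).card := by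
  have hne : B ≠ ∅ := Finset.ne_empty_of_mem hi
  by_cases he : B.erase i = ∅
  · rw [he]
    have h0 : S.aB L c α s ∅ = α := by simp [aB]
    rw [h0, cB_empty, Finset.sdiff_empty]
    unfold thr
    split_ifs with hsp
    · have := S.eta_le_err_stop (α := α) hB hne hsp
      linarith
    · have := S.lam_le_err ((S.aB_budget c α s hB).trans h.2)
      linarith
  · have hsp := S.spec_stop (L := L) c s he
    have h0 : S.aB L c α s (B.erase i) = S.aB L c α s B := by simp [aB, he, hne]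
    have hc : (L \ B.erase i).card = (L \ B).card + 1 := by
      have h1 := Finset.card_sdiff_add_card_eq_card hB
      have h2 := Finset.card_sdiff_add_card_eq_card ((Finset.erase_subset i B).trans hB)
      have h3 := Finset.card_erase_add_one hi
      omega
    unfold thr
    rw [if_pos hsp, h0, hc, add_sub_cancel_left]
    refine S.pow_anti8 ?_
    have : 0 < 4 ^ ((L \ B).card + 1) := by positivity
    omega

lemma arr_sep {L : Finset ι} {c : ι → ℝ} {α : ℕ} {s l : ℝ} (h : S.Arr L c α s l) :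
    S.Spec L c s ∨ S.Far L c α s := h.imp And.left And.left

/-- The lower side of the cell is within the error allowed after stopping. -/
lemma arr_err {L B : Finset ι} {c : ι → ℝ} {α : ℕ} {s l : ℝ}
    (h : S.Inv L c α) (hA : S.Arr L c α s l) (hB : B ⊆ L) (hne : B ≠ ∅) :
    s - S.err (S.aB L c α s B) (L \ B).card ≤ l - S.lam := by
  have h1 := S.lam_le_err ((S.aB_budget c α s hB).trans h.2)
  have h2 := S.lam_pos
  rcases hA with ⟨hsp, h3⟩ | ⟨_, h3⟩
  · have := S.eta_le_err_stop (α := α) hB hne hsp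
    linarith
  · linarith

lemma arr_one {L : Finset ι} {c : ι → ℝ} {α : ℕ} {s l : ℝ}
    (h : S.Inv L c α) (hA : S.Arr L c α s l) : s - 1 ≤ l - S.lam := by
  have h1 := S.lam_le_err h.2
  have h2 := S.err_le_eta α L.card
  have h3 := S.lam_pos
  have h4 := S.eta_le α L.card
  have h5 : S.q ^ α ≤ 1 := pow_le_one₀ S.q_pos.le S.q_le_one
  rcases hA with ⟨_, h6⟩ | ⟨_, h6⟩ <;> linarith

end Setup

end Pool.Agent.Lib.MP_5f8094_an
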